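import Mathlib

/-! Upper means of real sequences. -/

set_option autoImplicit false

namespace Pool.Agent.P.MP_3b6bd2_nt

open Filter Finset

/-- the upper mean of `f` is at most `c` -/
def UM (f : ℕ → ℝ) (c : ℝ) : Prop :=
  ∀ ε : ℝ, 0 < ε → ∀ᶠ y : ℕ in atTop, ∑ n ∈ range y, f n ≤ (c + ε) * y

lemma ev_le (C ε : ℝ) (hε : 0 < ε) : ∀ᶠ y : ℕ in atTop, C ≤ ε * y := by
  have : Tendsto (fun y : ℕ => ε * (y : ℝ)) atTop atTop :=
    tendsto_natCast_atTop_atTop.const_mul_atTop hε
  exact this.eventually_ge_atTop C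

lemma UM.le {f : ℕ → ℝ} {c c' : ℝ} (h : UM f c) (hc : c ≤ c') : UM f c' := by
  intro ε hε
  filter_upwards [h ε hε] with y hy
  exact hy.trans (by gcongr)

lemma UM.of_forall {f : ℕ → ℝ} {c : ℝ} (h : ∀ δ : ℝ, 0 < δ → UM f (c + δ)) : UM f c := by
  intro ε hε
  filter_upwards [h (ε / 2) (by positivity) (ε / 2) (by positivity)] with y hy
  calc _ ≤ _ := hy
    _ = _ := by ring

lemma UM.mono {f g : ℕ → ℝ} {c : ℝ} (h : UM g c) (n₀ : ℕ) (hfg : ∀ n, n₀ ≤ n → f n ≤ g n) :
    UM f c := by
  intro ε hε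
  filter_upwards [h (ε / 2) (by positivity),
    ev_le (∑ n ∈ range n₀, (f n - g n)) (ε / 2) (by positivity), eventually_ge_atTop n₀]
    with y hy h1 h2
  have e1 := sum_range_add_sum_Ico f h2
  have e2 := sum_range_add_sum_Ico g h2
  have e3 : ∑ n ∈ Ico n₀ y, f n ≤ ∑ n ∈ Ico n₀ y, g n :=
    sum_le_sum (fun n hn => hfg n (mem_Ico.1 hn).1)
  rw [sum_sub_distrib] at h1
  linarith

lemma UM.add {f g : ℕ → ℝ} {c d : ℝ} (h : UM f c) (h' : UM g d) :
    UM (fun n => f n + g n) (c + d) := by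
  intro ε hε
  filter_upwards [h (ε / 2) (by positivity), h' (ε / 2) (by positivity)] with y h1 h2
  rw [sum_add_distrib]
  linarith

lemma UM.const (c : ℝ) : UM (fun _ => c) c := by
  intro ε hε
  filter_upwards with y
  simp only [sum_const, card_range, nsmul_eq_mul]
  have : (0 : ℝ) ≤ y := Nat.cast_nonneg y
  nlinarith

lemma UM.sum {ι : Type*} (s : Finset ι) (f : ι → ℕ → ℝ) (c : ι → ℝ)
    (h : ∀ i ∈ s, UM (f i) (c i)) : UM (fun n => ∑ i ∈ s, f i n) (∑ i ∈ s, c i) := by
  classical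
  induction s using Finset.induction_on with
  | empty => simpa using UM.const 0
  | insert a s ha ih =>
    simp only [sum_insert ha]
    exact (h a (mem_insert_self _ _)).add (ih (fun i hi => h i (mem_insert_of_mem hi)))

lemma UM.smul {f : ℕ → ℝ} {c : ℝ} (h : UM f c) {k : ℝ} (hk : 0 ≤ k) :
    UM (fun n => k * f n) (k * c) := by
  intro ε hε
  filter_upwards [h (ε / (k + 1)) (by positivity)] with y hy
  rw [← mul_sum]
  have h0 : (0 : ℝ) ≤ y := Nat.cast_nonneg y
  have h1 : k * (ε / (k + 1)) ≤ ε := by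
    rw [mul_div_assoc', div_le_iff₀ (by positivity)]; nlinarith
  calc k * ∑ n ∈ range y, f n ≤ k * ((c + ε / (k + 1)) * y) := by gcongr
    _ = (k * c + k * (ε / (k + 1))) * y := by ring
    _ ≤ _ := by gcongr

lemma UM.of_littleO {f : ℕ → ℝ}
    (h : (fun y : ℕ => ∑ n ∈ range y, f n) =o[atTop] (fun y : ℕ => (y : ℝ))) (k : ℝ) :
    UM (fun n => k * f n) 0 := by
  intro ε hε
  have h2 := (h.const_mul_left k).def hε
  filter_upwards [h2] with y hy
  rw [← mul_sum, zero_add]
  simp only [Real.norm_eq_abs, Nat.abs_cast] at hy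
  exact (le_abs_self _).trans hy

lemma UM.littleO {f : ℕ → ℝ} (h : UM f 0) (h' : UM (fun n => -f n) 0) :
    (fun y : ℕ => ∑ n ∈ range y, f n) =o[atTop] (fun y : ℕ => (y : ℝ)) := by
  rw [Asymptotics.isLittleO_iff]
  intro ε hε
  filter_upwards [h ε hε, h' ε hε] with y h1 h2
  simp only [Real.norm_eq_abs, Nat.abs_cast, zero_add, sum_neg_distrib] at *
  rw [abs_le]; constructor <;> linarith

lemma sum_range_mul (f : ℕ → ℝ) (q Y : ℕ) :
    ∑ n ∈ range (q * Y), f n = ∑ N ∈ range Y, ∑ h ∈ range q, f (q * N + h) := by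
  induction Y with
  | zero => simp
  | succ Y ih => rw [Nat.mul_succ, sum_range_add, ih, sum_range_succ]

/-- cutting into blocks of length `q` -/
lemma UM.blocks {t : ℕ → ℝ} {B C : ℝ} {q : ℕ} (hq : 0 < q) (hB : ∀ n, t n ≤ B)
    (h : UM (fun N => ∑ h ∈ range q, t (q * N + h)) C) : UM t (C / q) := by
  intro ε hε
  have hq' : (0 : ℝ) < q := by exact_mod_cast hq
  have ht : Tendsto (fun y : ℕ => y / q) atTop atTop := Nat.tendsto_div_const_atTop hq.ne'
  filter_upwards [ht.eventually (h (ε / 2 * q) (by positivity)),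
    ev_le (q * |B| + q * |C / q + ε / 2|) (ε / 2) (by positivity)] with y h1 h2
  have e1 : y = q * (y / q) + y % q := (Nat.div_add_mod y q).symm
  have hr : y % q < q := Nat.mod_lt _ hq
  have e2 : ∑ n ∈ range y, t n =
      ∑ n ∈ range (q * (y / q)), t n + ∑ h ∈ range (y % q), t (q * (y / q) + h) := by
    conv_lhs => rw [e1, sum_range_add]
  have e3 : ∑ h ∈ range (y % q), t (q * (y / q) + h) ≤ q * |B| := by
    calc _ ≤ ∑ h ∈ range (y % q), |B| := sum_le_sum (fun h _ => (hB _).trans (le_abs_self _))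
      _ = (y % q : ℕ) * |B| := by simp
      _ ≤ _ := by gcongr
  have e4 : (y : ℝ) = q * (y / q : ℕ) + (y % q : ℕ) := by exact_mod_cast e1
  have e5 : (C + ε / 2 * q) * (y / q : ℕ) = (C / q + ε / 2) * (y - (y % q : ℕ)) := by
    rw [e4]; field_simp; ring
  have e6 : -((C / q + ε / 2) * (y % q : ℕ)) ≤ q * |C / q + ε / 2| := by
    have : ((y % q : ℕ) : ℝ) ≤ q := by exact_mod_cast hr.le
    calc _ ≤ |(C / q + ε / 2) * (y % q : ℕ)| := neg_le_abs _
      _ = |C / q + ε / 2| * (y % q : ℕ) := by rw [abs_mul, Nat.abs_cast]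
      _ ≤ |C / q + ε / 2| * q := by gcongr
      _ = _ := by ring
  rw [e2, sum_range_mul]
  rw [e5] at h1
  nlinarith

/-- pulling a nonnegative function back along an arithmetic progression -/
lemma UM.pullback {g : ℕ → ℝ} {c : ℝ} (h : UM g c) (hg : ∀ u, 0 ≤ g u) (hc : 0 ≤ c) (a b : ℕ)
    (ha : 0 < a) : UM (fun m => g (a * m + b)) (a * c) := by
  intro ε hε
  have ha' : (0 : ℝ) < a := by exact_mod_cast ha
  have ht : Tendsto (fun y : ℕ => a * y + b) atTop atTop :=
    tendsto_atTop_mono (fun y => (Nat.le_mul_of_pos_left y ha).trans (Nat.le_add_right _ _))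
      tendsto_id
  filter_upwards [ht.eventually (h (ε / 2 / a) (by positivity)),
    ev_le ((c + ε / 2 / a) * b) (ε / 2) (by positivity)] with y h1 h2
  have e1 : ∑ m ∈ range y, g (a * m + b) ≤ ∑ u ∈ range (a * y + b), g u := by
    rw [← sum_image (s := range y) (g := fun m => a * m + b) (f := g)]
    · apply sum_le_sum_of_subset_of_nonneg
      · intro u hu
        obtain ⟨m, hm, rfl⟩ := mem_image.1 hu
        have := mem_range.1 hm
        exact mem_range.2 (by nlinarith)
      · intro u _ _; exact hg u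
    · intro m _ m' _ hm
      have : a * m = a * m' := by simpa using hm
      exact Nat.eq_of_mul_eq_mul_left ha this
  have e2 : (c + ε / 2 / a) * ((a * y + b : ℕ) : ℝ) =
      (a * c + ε / 2) * y + (c + ε / 2 / a) * b := by
    push_cast; field_simp
  linarith

open Classical in
/-- a set inside one residue class -/
lemma UM.of_modEq (A : ℕ → Prop) (q : ℕ) (hq : 0 < q)
    (hA : ∀ m m', A m → A m' → m ≡ m' [MOD q]) :
    UM (fun m => if A m then 1 else 0) (1 / q) := by
  apply UM.blocks (B := 1) hq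
  · intro n; split_ifs <;> norm_num
  · refine (UM.const 1).mono 0 (fun N _ => ?_)
    rw [sum_boole]
    have : ((range q).filter (fun h => A (q * N + h))).card ≤ 1 := by
      rw [card_le_one]
      intro h hh h' hh'
      rw [mem_filter, mem_range] at hh hh'
      have := hA _ _ hh.2 hh'.2
      exact Nat.ModEq.eq_of_lt_of_lt (Nat.ModEq.add_left_cancel' _ this) hh.1 hh'.1
    exact_mod_cast this

open Classical in
lemma UM.dvd (p : ℕ) (hp : 0 < p) (a b : ℕ) (ha : 0 < a) :
    UM (fun m => if p ∣ a * m + b then 1 else 0) (a * (1 / p)) := by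
  have h := UM.of_modEq (fun u => p ∣ u) p hp (fun m m' h h' =>
    ((Nat.modEq_zero_iff_dvd).2 h).trans ((Nat.modEq_zero_iff_dvd).2 h').symm)
  have h2 := h.pullback (fun u => by split_ifs <;> norm_num) (by positivity) a b ha
  convert h2

/-- undoing the dilations -/
lemma UM.dilate {ι : Type*} (s : Finset ι) (k : ι → ℕ) (f : ι → ℕ → ℝ) (K : ℕ) (hK : 0 < K)
    (ρ : ℝ) (hρ : 1 ≤ ρ) (h1 : ∀ i ∈ s, K ≤ k i) (h2 : ∀ i ∈ s, (k i : ℝ) ≤ ρ * K)
    (hf : ∀ i ∈ s, ∀ m, f i m ≤ 1) {C : ℝ}
    (h : UM (fun n => ∑ i ∈ s, if k i ∣ n then f i (n / k i) else 0) C) :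
    UM (fun m => ∑ i ∈ s, f i m) (K * C + s.card * (ρ - 1)) := by
  intro ε hε
  have hK' : (0 : ℝ) < K := by exact_mod_cast hK
  have ht : Tendsto (fun y : ℕ => K * y) atTop atTop :=
    tendsto_atTop_mono (fun y => Nat.le_mul_of_pos_left y hK) tendsto_id
  filter_upwards [ht.eventually (h (ε / K) (by positivity))] with y hy
  have key : ∀ i ∈ s, ∑ m ∈ range y, f i m ≤
      ∑ n ∈ range (K * y), (if k i ∣ n then f i (n / k i) else 0) + (ρ - 1) * y := by
    intro i hi
    have hk : 0 < k i := lt_of_lt_of_le hK (h1 i hi)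
    have e1 : ∑ n ∈ range (K * y), (if k i ∣ n then f i (n / k i) else 0) =
        ∑ m ∈ (range y).filter (fun m => k i * m < K * y), f i m := by
      rw [← sum_filter]
      symm
      apply sum_bij (fun m _ => k i * m)
      · intro m hm
        rw [mem_filter] at hm ⊢
        exact ⟨mem_range.2 hm.2, Dvd.intro _ rfl⟩
      · intro m _ m' _ hm
        exact Nat.eq_of_mul_eq_mul_left hk hm
      · intro n hn
        rw [mem_filter, mem_range] at hn
        obtain ⟨hn1, m, rfl⟩ := hn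
        refine ⟨m, mem_filter.2 ⟨mem_range.2 ?_, hn1⟩, rfl⟩
        by_contra hm
        have : K * y ≤ k i * m := Nat.mul_le_mul (h1 i hi) (not_lt.1 hm)
        omega
      · intro m _
        rw [Nat.mul_div_cancel_left _ hk]
    have e2 := sum_filter_add_sum_filter_not (range y) (fun m => k i * m < K * y) (f i)
    have e3 : ∑ m ∈ (range y).filter (fun m => ¬ k i * m < K * y), f i m ≤ (ρ - 1) * y := by
      by_cases hne : ((range y).filter (fun m => ¬ k i * m < K * y)).Nonempty
      · set T := (range y).filter (fun m => ¬ k i * m < K * y) with hT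
        have hm0 := T.min'_mem hne
        set m0 := T.min' hne
        have hsub : T ⊆ Ico m0 y := fun m hm =>
          mem_Ico.2 ⟨T.min'_le m hm, mem_range.1 (mem_filter.1 hm).1⟩
        rw [mem_filter, mem_range, not_lt] at hm0
        have c1 : (T.card : ℝ) ≤ y - m0 := by
          have := card_le_card hsub
          rw [Nat.card_Ico] at this
          have h3 : ((y - m0 : ℕ) : ℝ) = y - m0 := by rw [Nat.cast_sub hm0.1.le]
          rw [← h3]; exact_mod_cast this
        have c2 : (K : ℝ) * y ≤ ρ * K * m0 := by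
          have : ((K * y : ℕ) : ℝ) ≤ (k i * m0 : ℕ) := by exact_mod_cast hm0.2
          push_cast at this
          exact this.trans (by gcongr; exact h2 i hi)
        have c3 : (y : ℝ) ≤ ρ * m0 := by
          have : (K : ℝ) * y ≤ K * (ρ * m0) := by linarith
          exact le_of_mul_le_mul_left this hK'
        have c4 : (m0 : ℝ) ≤ y := by exact_mod_cast hm0.1.le
        calc ∑ m ∈ T, f i m ≤ ∑ m ∈ T, (1 : ℝ) := sum_le_sum (fun m _ => hf i hi m)
          _ = T.card := by simp
          _ ≤ _ := by nlinarith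
      · rw [not_nonempty_iff_eq_empty.1 hne, sum_empty]
        have : (0 : ℝ) ≤ y := Nat.cast_nonneg y
        nlinarith
    rw [e1]; linarith
  rw [sum_comm]
  refine (sum_le_sum key).trans ?_
  rw [sum_add_distrib, sum_comm, sum_const, nsmul_eq_mul]
  have e : (C + ε / K) * ((K * y : ℕ) : ℝ) = (K * C + ε) * y := by
    push_cast; field_simp
  linarith

end Pool.Agent.P.MP_3b6bd2_nt
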