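import Mathlib
import Pool.Agent.P.MP_3b6bd2_nt.Mean

/-! A finite class (Massart type) bound for Moebius windows against an adversary. -/

set_option autoImplicit false

namespace Pool.Agent.P.MP_3b6bd2_nt

open Filter Finset ArithmeticFunction

/-- real valued Moebius function -/
noncomputable def mu (n : ℕ) : ℝ := (moebius n : ℝ)

lemma abs_mu_le (n : ℕ) : |mu n| ≤ 1 := by
  unfold mu; exact_mod_cast abs_moebius_le_one

/-- pure Moebius correlations with a common modulus vanish -/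
def PureM : Prop :=
  ∀ A : ℕ, 0 < A → ∀ T : Finset ℕ, T.Nonempty →
    (fun y : ℕ => ∑ n ∈ range y, ∏ c ∈ T, mu (A * n + c)) =o[atTop] (fun y : ℕ => (y : ℝ))

lemma exp_moment (hM : PureM) {ι : Type*} (A : ℕ) (hA : 0 < A) (Ed : Finset ι) (C : ι → ℕ)
    (hC : Set.InjOn C Ed) (co : ι → ℝ) (hco : ∀ e, |co e| ≤ 1) (θ : ℝ) :
    UM (fun N => Real.exp (θ * ∑ e ∈ Ed, co e * mu (A * N + C e)))
      (Real.exp (θ ^ 2 * Ed.card / 2)) := by
  classical
  have h1 : ∀ t ∈ Ed.powerset, UM (fun N => (∏ e ∈ t, (co e * mu (A * N + C e) * Real.sinh θ)) *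
      ∏ _e ∈ Ed \ t, Real.cosh θ) (if t = ∅ then Real.cosh θ ^ Ed.card else 0) := by
    intro t ht
    by_cases h0 : t = ∅
    · subst h0
      simpa using UM.const (Real.cosh θ ^ Ed.card)
    · rw [if_neg h0]
      have hne : (t.image C).Nonempty := (nonempty_iff_ne_empty.2 h0).image C
      have := UM.of_littleO (hM A hA _ hne)
        ((∏ e ∈ t, (co e * Real.sinh θ)) * ∏ _e ∈ Ed \ t, Real.cosh θ)
      refine this.mono 0 (fun N _ => le_of_eq ?_)
      rw [prod_image (fun x hx y hy h => hC (mem_powerset.1 ht hx) (mem_powerset.1 ht hy) h)]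
      rw [mul_right_comm, ← prod_mul_distrib]
      congr 1
      exact prod_congr rfl (fun e _ => by ring)
  have h2 := UM.sum _ _ _ h1
  rw [sum_ite_eq' Ed.powerset ∅, if_pos (empty_mem_powerset _)] at h2
  refine (h2.mono 0 (fun N _ => ?_)).le ?_
  · rw [← prod_add, mul_sum, Real.exp_sum]
    apply prod_le_prod (fun e _ => (Real.exp_pos _).le)
    intro e _
    have h3 : |co e * mu (A * N + C e)| ≤ 1 := by
      rw [abs_mul]
      exact mul_le_one₀ (hco e) (abs_nonneg _) (abs_mu_le _)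
    have := Real.exp_mul_le_cosh_add_mul_sinh h3 θ
    rw [mul_comm θ]; linarith
  · calc Real.cosh θ ^ Ed.card ≤ Real.exp (θ ^ 2 / 2) ^ Ed.card :=
          pow_le_pow_left₀ (Real.cosh_pos θ).le (Real.cosh_le_exp_half_sq θ) _
      _ = _ := by rw [← Real.exp_nat_mul]; congr 1; ring

lemma massart (hM : PureM) {ι γ : Type*} (A : ℕ) (hA : 0 < A) (Ed : Finset ι) (C : ι → ℕ)
    (hC : Set.InjOn C Ed) (G : Finset γ) (co : ι → γ → ℝ) (hco : ∀ e g, |co e g| ≤ 1)
    (S : ℕ → γ) (hS : ∀ N, S N ∈ G) (θ : ℝ) (hθ : 0 < θ) (v : ℝ)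
    (hv : (G.card : ℝ) ≤ Real.exp v) :
    UM (fun N => ∑ e ∈ Ed, co e (S N) * mu (A * N + C e)) (v / θ + θ * Ed.card / 2 + 1 / θ) := by
  set z : ℝ := v / θ + θ * Ed.card / 2 with hz
  have h1 := UM.sum G _ _ (fun g _ =>
    exp_moment hM A hA Ed C hC (fun e => co e g) (fun e => hco e g) θ)
  have h2 := (UM.const z).add (h1.smul (k := Real.exp (-(θ * z)) / θ) (by positivity))
  refine (h2.mono 0 (fun N _ => ?_)).le ?_
  · have h3 : Real.exp (θ * ∑ e ∈ Ed, co e (S N) * mu (A * N + C e)) ≤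
        ∑ g ∈ G, Real.exp (θ * ∑ e ∈ Ed, co e g * mu (A * N + C e)) :=
      single_le_sum (f := fun g => Real.exp (θ * ∑ e ∈ Ed, co e g * mu (A * N + C e)))
        (fun g _ => (Real.exp_pos _).le) (hS N)
    generalize (∑ e ∈ Ed, co e (S N) * mu (A * N + C e)) = X at h3 ⊢
    generalize (∑ g ∈ G, Real.exp (θ * ∑ e ∈ Ed, co e g * mu (A * N + C e))) = Y at h3 ⊢
    have h4 : θ * X + -(θ * z) + 1 ≤ Real.exp (θ * X) * Real.exp (-(θ * z)) := by
      rw [← Real.exp_add]; exact Real.add_one_le_exp _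
    have h5 : Real.exp (θ * X) * Real.exp (-(θ * z)) ≤ Y * Real.exp (-(θ * z)) := by gcongr
    have h6 : X - z ≤ Real.exp (-(θ * z)) / θ * Y := by
      rw [div_mul_eq_mul_div, le_div_iff₀ hθ]; nlinarith
    linarith
  · rw [sum_const, nsmul_eq_mul]
    have h3 : Real.exp (-(θ * z)) * Real.exp (θ ^ 2 * Ed.card / 2) * Real.exp v = 1 := by
      rw [← Real.exp_add, ← Real.exp_add, hz]
      have : -(θ * (v / θ + θ * Ed.card / 2)) + θ ^ 2 * Ed.card / 2 + v = 0 := by
        field_simp; ring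
      rw [this, Real.exp_zero]
    have h4 : Real.exp (-(θ * z)) * (G.card * Real.exp (θ ^ 2 * Ed.card / 2)) ≤ 1 := by
      calc _ ≤ Real.exp (-(θ * z)) * (Real.exp v * Real.exp (θ ^ 2 * Ed.card / 2)) := by gcongr
        _ = 1 := by rw [← h3]; ring
    have h5 : Real.exp (-(θ * z)) / θ * (G.card * Real.exp (θ ^ 2 * Ed.card / 2)) ≤ 1 / θ := by
      rw [div_mul_eq_mul_div]; gcongr
    linarith

end Pool.Agent.P.MP_3b6bd2_nt
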