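import Mathlib
import Pool.Agent.P.MP_3b6bd2_nt.Massart

/-! The window estimate. -/

set_option autoImplicit false

namespace Pool.Agent.P.MP_3b6bd2_nt

open Filter Finset ArithmeticFunction

/-- real valued Liouville function -/
noncomputable def lam (n : ℕ) : ℝ := (liouville n : ℝ)

lemma lam_mul (m n : ℕ) : lam (m * n) = lam m * lam n := by
  unfold lam; rw [liouville_apply_mul]; push_cast; rfl

lemma lam_cases {n : ℕ} (hn : n ≠ 0) : lam n = 1 ∨ lam n = -1 := by
  unfold lam; rw [liouville_apply hn]; push_cast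
  exact neg_one_pow_eq_or ℝ _

lemma abs_lam_le (n : ℕ) : |lam n| ≤ 1 := by
  by_cases hn : n = 0
  · subst hn; simp [lam]
  · rcases lam_cases hn with h | h <;> simp [h]

lemma lam_sq {n : ℕ} (hn : n ≠ 0) : lam n * lam n = 1 := by
  rcases lam_cases hn with h | h <;> simp [h]

lemma mu_sq {n : ℕ} (hn : Squarefree n) : mu n * mu n = 1 := by
  unfold mu
  have := moebius_sq_eq_one_of_squarefree hn
  rw [sq] at this
  exact_mod_cast this

lemma mu_mul {m n : ℕ} (h : Nat.Coprime m n) : mu (m * n) = mu m * mu n := by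
  unfold mu; rw [isMultiplicative_moebius.map_mul_of_coprime h]; push_cast; rfl

lemma abs_prod_le_one {ι : Type*} (s : Finset ι) (f : ι → ℝ) (h : ∀ i ∈ s, |f i| ≤ 1) :
    |∏ i ∈ s, f i| ≤ 1 := by
  rw [abs_prod]; exact prod_le_one (fun i _ => abs_nonneg _) h

lemma abs_mul_le_one {x y : ℝ} (hx : |x| ≤ 1) (hy : |y| ≤ 1) : |x * y| ≤ 1 := by
  rw [abs_mul]; exact mul_le_one₀ hx (abs_nonneg _) hy

/-- the summand: Moebius at the protected form, Liouville at the others -/
noncomputable def Fd (a b₀ d : ℕ) (B' : Finset ℕ) (σ : ℝ) (m : ℕ) : ℝ :=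
  σ * mu ((a * m + b₀) / d ^ 2) * ∏ l ∈ B', lam (a * m + l)

lemma abs_Fd_le (a b₀ d : ℕ) (B' : Finset ℕ) {σ : ℝ} (hσ : |σ| ≤ 1) (m : ℕ) :
    |Fd a b₀ d B' σ m| ≤ 1 :=
  abs_mul_le_one (abs_mul_le_one hσ (abs_mu_le _)) (abs_prod_le_one _ _ (fun _ _ => abs_lam_le _))

lemma card_multiples_le (Y k : ℕ) (hk : 0 < k) (h : k ∣ Y) :
    (((range Y).filter (fun o => k ∣ o)).card : ℝ) ≤ Y / k := by
  obtain ⟨Z, rfl⟩ := h
  have h1 : ((range (k * Z)).filter (fun o => k ∣ o)).card ≤ (range Z).card := by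
    apply card_le_card_of_injOn (fun o => o / k)
    · intro o ho
      simp only [coe_filter, mem_range, Set.mem_ofPred_eq, coe_range, Set.mem_Iio] at ho ⊢
      exact Nat.div_lt_of_lt_mul ho.1
    · intro o ho o' ho' h
      simp only [coe_filter, mem_range, Set.mem_ofPred_eq] at ho ho'
      obtain ⟨x, rfl⟩ := ho.2
      obtain ⟨x', rfl⟩ := ho'.2
      simp only [Nat.mul_div_cancel_left _ hk] at h
      rw [h]
  rw [card_range] at h1
  have hk' : (0 : ℝ) < k := by exact_mod_cast hk
  push_cast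
  rw [mul_div_cancel_left₀ _ hk'.ne']
  exact_mod_cast h1

open Classical in
lemma block_bound (hM : PureM) {ι : Type*} (a b₀ d : ℕ) (ha : 0 < a) (hd : 0 < d) (B' : Finset ℕ)
    (σ : ℝ) (hσ : |σ| ≤ 1) (s s' : Finset ι) (k : ι → ℕ) (cond : ι → ℕ → Prop) (K c q : ℕ)
    (hK : 0 < K) (hc : 0 < c) (hq : 0 < q) (θ : ℝ) (hθ : 0 < θ)
    (hk : ∀ i ∈ s, K ≤ k i ∧ Squarefree (k i) ∧ k i * d ^ 2 ∣ q)
    (hper : ∀ i ∈ s, ∀ N m, cond i (q / k i * N + m) ↔ cond i m)
    (hdiv : ∀ i ∈ s, ∀ m, cond i m → d ^ 2 ∣ a * m + b₀ ∧ Nat.Coprime (k i) (a * m + b₀))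
    (hinj : ∀ i ∈ s, ∀ i' ∈ s, ∀ m m', cond i m → cond i' m' →
      k i * (a * m + b₀) = k i' * (a * m' + b₀) → i = i')
    (hdeg : ∀ i ∈ s, ∀ m, cond i m → ∀ l ∈ B',
      c ≤ (s'.filter (fun i' => k i' ∣ k i * (a * m + l))).card)
    (hk' : ∀ i ∈ s', k i ∣ q ∧ K ≤ 2 * k i)
    (hsz : ∀ i ∈ s, ∀ l ∈ B', l * k i ≤ q) :
    UM (fun n => ∑ i ∈ s, if k i ∣ n then
        (if cond i (n / k i) then Fd a b₀ d B' σ (n / k i) else 0) else 0)
      (2 * (a + 1) * s'.card / (K * c * θ) + θ * s.card / (2 * K) + 1 / (θ * q)) := by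
  have hq' : (0 : ℝ) < q := by exact_mod_cast hq
  have hK' : (0 : ℝ) < K := by exact_mod_cast hK
  have hc' : (0 : ℝ) < c := by exact_mod_cast hc
  set Ed := (s ×ˢ range q).filter (fun e => k e.1 ∣ e.2 ∧ cond e.1 (e.2 / k e.1)) with hEd
  set V := (range ((a + 1) * q)).filter
    (fun o => c ≤ (s'.filter (fun i' => k i' ∣ o)).card) with hV
  have hd2 : d ^ 2 ∣ q ∨ s = ∅ := by
    rcases s.eq_empty_or_nonempty with h | ⟨i, hi⟩
    · exact Or.inr h
    · exact Or.inl (Dvd.dvd.trans (Dvd.intro_left _ rfl) (hk i hi).2.2)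
  rcases hd2 with hd2 | hd2
  swap
  · subst hd2
    simp only [sum_empty]
    exact (UM.const 0).le (by positivity)
  have hA : 0 < a * (q / d ^ 2) :=
    Nat.mul_pos ha (Nat.div_pos (Nat.le_of_dvd hq hd2) (by positivity))
  have hC : Set.InjOn (fun e : ι × ℕ => k e.1 * ((a * (e.2 / k e.1) + b₀) / d ^ 2)) Ed := by
    rintro ⟨i, h⟩ he ⟨i', h'⟩ he' hC
    simp only [hEd, coe_filter, mem_product, mem_range, Set.mem_ofPred_eq] at he he' hC
    obtain ⟨⟨hi, -⟩, ⟨m, rfl⟩, h2⟩ := he
    obtain ⟨⟨hi', -⟩, ⟨m', rfl⟩, h2'⟩ := he'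
    have p1 : 0 < k i := lt_of_lt_of_le hK (hk i hi).1
    have p2 : 0 < k i' := lt_of_lt_of_le hK (hk i' hi').1
    rw [Nat.mul_div_cancel_left _ p1] at h2 hC
    rw [Nat.mul_div_cancel_left _ p2] at h2' hC
    obtain ⟨w, hw⟩ := (hdiv i hi m h2).1
    obtain ⟨w', hw'⟩ := (hdiv i' hi' m' h2').1
    have e : k i * (a * m + b₀) = k i' * (a * m' + b₀) := by
      rw [hw, hw', Nat.mul_div_cancel_left _ (by positivity),
        Nat.mul_div_cancel_left _ (by positivity)] at hC
      rw [hw, hw', mul_left_comm, hC, mul_left_comm]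
    obtain rfl := hinj i hi i' hi' m m' h2 h2' e
    have e2 := Nat.eq_of_mul_eq_mul_left p1 e
    have e3 : m = m' := Nat.eq_of_mul_eq_mul_left ha (by omega)
    rw [e3]
  have hmas := massart hM (a * (q / d ^ 2)) hA Ed _ hC V.powerset
    (fun e S => σ * mu (k e.1) * ∏ l ∈ B', (lam (k e.1) *
      if k e.1 * (a * (e.2 / k e.1) + l) ∈ S then -1 else 1))
    (fun e S => abs_mul_le_one (abs_mul_le_one hσ (abs_mu_le _))
      (abs_prod_le_one _ _ (fun _ _ => abs_mul_le_one (abs_lam_le _) (by split_ifs <;> simp))))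
    (fun N => V.filter (fun o => lam (a * q * N + o) = -1))
    (fun N => mem_powerset.2 (filter_subset _ _)) θ hθ V.card (by
      rw [card_powerset, ← mul_one (V.card : ℝ), Real.exp_nat_mul]
      push_cast
      apply pow_le_pow_left₀ (by norm_num)
      have := Real.add_one_le_exp 1
      linarith)
  have hVc : (V.card : ℝ) * c ≤ s'.card * (2 * (a + 1) * q / K) := by
    calc (V.card : ℝ) * c = ∑ _o ∈ V, (c : ℝ) := by rw [sum_const, nsmul_eq_mul]
      _ ≤ ∑ o ∈ V, ∑ i' ∈ s', (if k i' ∣ o then 1 else 0 : ℝ) := by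
          apply sum_le_sum
          intro o ho
          rw [sum_boole]
          exact_mod_cast (mem_filter.1 ho).2
      _ ≤ ∑ o ∈ range ((a + 1) * q), ∑ i' ∈ s', (if k i' ∣ o then 1 else 0 : ℝ) := by
          apply sum_le_sum_of_subset_of_nonneg (filter_subset _ _)
          intro o _ _
          exact sum_nonneg (fun _ _ => by split_ifs <;> norm_num)
      _ = ∑ i' ∈ s', ∑ o ∈ range ((a + 1) * q), (if k i' ∣ o then 1 else 0 : ℝ) := sum_comm
      _ ≤ ∑ _i' ∈ s', (2 * (a + 1) * q / K : ℝ) := by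
          apply sum_le_sum
          intro i hi
          have p1 : 0 < k i := by have := (hk' i hi).2; omega
          have p2 : (0 : ℝ) < k i := by exact_mod_cast p1
          have p3 : (K : ℝ) ≤ 2 * k i := by exact_mod_cast (hk' i hi).2
          rw [sum_boole]
          refine (card_multiples_le _ _ p1 (Dvd.dvd.mul_left (hk' i hi).1 _)).trans ?_
          push_cast
          rw [div_le_div_iff₀ p2 hK']
          have : (0 : ℝ) ≤ (a + 1) * q := by positivity
          nlinarith
      _ = _ := by rw [sum_const, nsmul_eq_mul]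
  have hEc : (Ed.card : ℝ) ≤ s.card * (q / K) := by
    calc (Ed.card : ℝ) ≤ ((s ×ˢ range q).filter (fun e => k e.1 ∣ e.2)).card := by
          have : Ed ⊆ (s ×ˢ range q).filter (fun e => k e.1 ∣ e.2) := by
            intro e he
            rw [hEd, mem_filter] at he
            exact mem_filter.2 ⟨he.1, he.2.1⟩
          exact_mod_cast card_le_card this
      _ = ∑ i ∈ s, ∑ h ∈ range q, (if k i ∣ h then 1 else 0 : ℝ) := by
          rw [← sum_boole, sum_product]
      _ ≤ ∑ _i ∈ s, (q / K : ℝ) := by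
          apply sum_le_sum
          intro i hi
          have p1 : 0 < k i := lt_of_lt_of_le hK (hk i hi).1
          have p3 : (K : ℝ) ≤ k i := by exact_mod_cast (hk i hi).1
          rw [sum_boole]
          refine (card_multiples_le _ _ p1 (Dvd.dvd.trans (Dvd.intro _ rfl) (hk i hi).2.2)).trans ?_
          gcongr
      _ = _ := by rw [sum_const, nsmul_eq_mul]
  refine (UM.blocks (B := s.card) hq ?_ (hmas.mono 1 ?_)).le ?_
  · intro n
    calc _ ≤ ∑ _i ∈ s, (1 : ℝ) := by
          apply sum_le_sum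
          intro i _
          split_ifs
          · exact (le_abs_self _).trans (abs_Fd_le _ _ _ _ hσ _)
          · norm_num
          · norm_num
      _ = _ := by simp
  · intro N hN
    apply le_of_eq
    rw [hEd, sum_filter, sum_product, sum_comm]
    refine sum_congr rfl (fun i hi => sum_congr rfl (fun h hh => ?_))
    obtain ⟨p0, psq, Q, hQ⟩ := hk i hi
    have p1 : 0 < k i := lt_of_lt_of_le hK p0
    have hkq : k i ∣ q := ⟨d ^ 2 * Q, by rw [hQ]; ring⟩
    have hqk : q / k i = d ^ 2 * Q := by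
      rw [hQ, mul_assoc, Nat.mul_div_cancel_left _ p1]
    have hqd : q / d ^ 2 = k i * Q := by
      rw [hQ, mul_comm (k i), mul_assoc, Nat.mul_div_cancel_left _ (by positivity)]
    simp only
    by_cases hdv : k i ∣ h
    swap
    · rw [if_neg (fun h' => hdv ((Nat.dvd_add_right (Dvd.dvd.mul_right hkq N)).1 h')),
        if_neg (fun h' => hdv h'.1)]
    obtain ⟨m, rfl⟩ := hdv
    have en : (q * N + k i * m) / k i = q / k i * N + m := by
      rw [hqk, hQ, show k i * d ^ 2 * Q * N + k i * m = k i * (d ^ 2 * Q * N + m) by ring,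
        Nat.mul_div_cancel_left _ p1]
    rw [if_pos (Dvd.dvd.add (Dvd.dvd.mul_right hkq N) (Dvd.intro _ rfl)), en,
      Nat.mul_div_cancel_left _ p1]
    by_cases hcd : cond i m
    swap
    · rw [if_neg (fun h' => hcd ((hper i hi N m).1 h')), if_neg (fun h' => hcd h'.2)]
    have hcd' := (hper i hi N m).2 hcd
    rw [if_pos hcd', if_pos ⟨Dvd.intro _ rfl, hcd⟩]
    obtain ⟨w, hw⟩ := (hdiv i hi m hcd).1
    have hcop := (hdiv i hi _ hcd').2
    have e1 : a * (q / k i * N + m) + b₀ = d ^ 2 * (a * Q * N + w) := by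
      rw [hqk, mul_add a, add_assoc, hw]; ring
    have e2 : mu ((a * (q / k i * N + m) + b₀) / d ^ 2) =
        mu (k i) * mu (a * (q / d ^ 2) * N + k i * ((a * m + b₀) / d ^ 2)) := by
      rw [e1] at hcop
      rw [e1, hw, Nat.mul_div_cancel_left _ (by positivity),
        Nat.mul_div_cancel_left _ (by positivity), hqd,
        show a * (k i * Q) * N + k i * w = k i * (a * Q * N + w) by ring,
        mu_mul (Nat.Coprime.coprime_dvd_right (Dvd.intro_left _ rfl) hcop), ← mul_assoc,
        mu_sq psq, one_mul]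
    have e3 : ∀ l ∈ B', lam (a * (q / k i * N + m) + l) = lam (k i) *
        if k i * (a * m + l) ∈ V.filter (fun o => lam (a * q * N + o) = -1) then -1 else 1 := by
      intro l hl
      have hmem : k i * (a * m + l) ∈ V := by
        rw [hV, mem_filter, mem_range]
        refine ⟨?_, hdeg i hi m hcd l hl⟩
        have h1 := hsz i hi l hl
        have h2 := mem_range.1 hh
        nlinarith
      have e4 : k i * (a * (q / k i * N + m) + l) = a * q * N + k i * (a * m + l) := by
        rw [hqk, hQ]; ring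
      have e5 : lam (a * (q / k i * N + m) + l) =
          lam (k i) * lam (a * q * N + k i * (a * m + l)) := by
        rw [← e4, lam_mul, ← mul_assoc, lam_sq p1.ne', one_mul]
      rw [e5]
      congr 1
      have hne : a * q * N + k i * (a * m + l) ≠ 0 := by
        have : 0 < a * q * N := by positivity
        omega
      rcases lam_cases hne with h | h
      · rw [if_neg (fun h' => by
          have h'' := (mem_filter.1 h').2
          rw [h] at h''; norm_num at h''), h]
      · rw [if_pos (mem_filter.2 ⟨hmem, h⟩), h]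
    unfold Fd
    rw [e2, prod_congr rfl e3]
    ring
  · rw [div_le_iff₀ hq']
    have h1 : (V.card : ℝ) / θ ≤ 2 * (a + 1) * s'.card / (K * c * θ) * q := by
      rw [div_le_iff₀ hθ]
      have : (V.card : ℝ) ≤ s'.card * (2 * (a + 1) * q / K) / c := by
        rw [le_div_iff₀ hc']; exact hVc
      refine this.trans (le_of_eq ?_)
      field_simp
    have h2 : θ * Ed.card / 2 ≤ θ * s.card / (2 * K) * q := by
      calc θ * Ed.card / 2 ≤ θ * (s.card * (q / K)) / 2 := by gcongr
        _ = _ := by field_simp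
    have h3 : 1 / θ = 1 / (θ * q) * q := by field_simp
    rw [add_mul, add_mul]
    linarith

end Pool.Agent.P.MP_3b6bd2_nt
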