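import Mathlib

/-! Families of squarefree multipliers. -/

set_option autoImplicit false

namespace Pool.Agent.P.MP_3b6bd2_nt

open Finset

/-- number of elements of `W` in the `j`-th dyadic block -/
def blk (W : Finset ℕ) (j : ℕ) : ℕ := (W.filter (fun p => Nat.log 2 p = j)).card

open Classical in
/-- maximal subsets of `Q` with at most `c` elements in every dyadic block -/
noncomputable def Fam (Q : Finset ℕ) (c : ℕ) : Finset (Finset ℕ) :=
  Q.powerset.filter (fun W => (∀ j, blk W j ≤ c) ∧ ∀ p ∈ Q, p ∉ W → blk W (Nat.log 2 p) = c)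

lemma mem_fam {Q W : Finset ℕ} {c : ℕ} : W ∈ Fam Q c ↔
    W ⊆ Q ∧ (∀ j, blk W j ≤ c) ∧ ∀ p ∈ Q, p ∉ W → blk W (Nat.log 2 p) = c := by
  classical
  unfold Fam; rw [mem_filter, mem_powerset]

lemma blk_insert {W : Finset ℕ} {p : ℕ} (hp : p ∉ W) (j : ℕ) :
    blk (insert p W) j = blk W j + if Nat.log 2 p = j then 1 else 0 := by
  unfold blk
  rw [filter_insert]
  split_ifs with h
  · rw [card_insert_of_notMem (fun h => hp (mem_filter.1 h).1)]
  · rfl

lemma fam_nonempty (Q : Finset ℕ) (c : ℕ) : (Fam Q c).Nonempty := by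
  classical
  obtain ⟨W, hW, hmax⟩ := exists_max_image (Q.powerset.filter (fun W => ∀ j, blk W j ≤ c)) card
    ⟨∅, by simp [blk]⟩
  rw [mem_filter, mem_powerset] at hW
  refine ⟨W, mem_fam.2 ⟨hW.1, hW.2, fun p hp hpW => ?_⟩⟩
  by_contra hne
  have hlt : blk W (Nat.log 2 p) < c := lt_of_le_of_ne (hW.2 _) hne
  have := hmax (insert p W) (mem_filter.2 ⟨mem_powerset.2 (insert_subset hp hW.1), fun j => by
    rw [blk_insert hpW]
    split_ifs with h
    · subst h; omega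
    · exact hW.2 j⟩)
  rw [card_insert_of_notMem hpW] at this
  omega

lemma fam_swap {Q W : Finset ℕ} {c p p' : ℕ} (hW : W ∈ Fam Q c) (hp : p ∈ Q) (hpW : p ∉ W)
    (hp' : p' ∈ W) (hl : Nat.log 2 p' = Nat.log 2 p) : insert p (W.erase p') ∈ Fam Q c := by
  rw [mem_fam] at hW ⊢
  have hb : ∀ j, blk (insert p (W.erase p')) j = blk W j := by
    intro j
    have h1 := blk_insert (W := W.erase p') (p := p) (fun h => hpW (mem_of_mem_erase h)) j
    have h2 := blk_insert (W := W.erase p') (p := p') (notMem_erase _ _) j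
    rw [insert_erase hp', hl] at h2
    omega
  refine ⟨insert_subset hp ((erase_subset _ _).trans hW.1), fun j => by rw [hb]; exact hW.2.1 j,
    fun r hr hrW => ?_⟩
  rw [hb]
  by_cases h : r = p'
  · rw [h, hl]; exact hW.2.2 p hp hpW
  · exact hW.2.2 r hr (fun h' => hrW (mem_insert_of_mem (mem_erase.2 ⟨h, h'⟩)))

lemma fam_recip {Q W : Finset ℕ} {c j₀ : ℕ} (hW : W ∈ Fam Q c) (hQ : ∀ p ∈ Q, 2 ^ j₀ ≤ p) :
    ∑ p ∈ W, (1 / p : ℝ) ≤ 2 * c / 2 ^ j₀ := by
  rw [mem_fam] at hW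
  set J := W.sup (Nat.log 2) + 1
  have hmap : ∀ p ∈ W, Nat.log 2 p ∈ Ico j₀ J := by
    intro p hp
    rw [mem_Ico]
    refine ⟨Nat.le_log_of_pow_le (by norm_num) (hQ p (hW.1 hp)), ?_⟩
    exact Nat.lt_succ_of_le (le_sup (f := Nat.log 2) hp)
  rw [← sum_fiberwise_of_maps_to hmap]
  have h1 : ∀ j ∈ Ico j₀ J, ∑ p ∈ W with Nat.log 2 p = j, (1 / p : ℝ) ≤ c * (1 / 2) ^ j := by
    intro j _
    calc _ ≤ ∑ p ∈ W with Nat.log 2 p = j, (1 / 2 : ℝ) ^ j := by
          apply sum_le_sum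
          intro p hp
          rw [mem_filter] at hp
          have hp0 : p ≠ 0 := by
            have := hQ p (hW.1 hp.1)
            have : 0 < 2 ^ j₀ := by positivity
            omega
          have : 2 ^ j ≤ p := by rw [← hp.2]; exact Nat.pow_log_le_self 2 hp0
          rw [one_div_pow]
          apply one_div_le_one_div_of_le (by positivity)
          exact_mod_cast this
      _ = blk W j * (1 / 2) ^ j := by rw [sum_const, nsmul_eq_mul]; rfl
      _ ≤ _ := by gcongr; exact_mod_cast hW.2.1 j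
  refine (sum_le_sum h1).trans ?_
  rw [← mul_sum]
  have h2 := geom_sum_Ico_le_of_lt_one (x := (1 / 2 : ℝ)) (m := j₀) (n := J) (by norm_num)
    (by norm_num)
  calc (c : ℝ) * ∑ j ∈ Ico j₀ J, (1 / 2 : ℝ) ^ j ≤ c * ((1 / 2) ^ j₀ / (1 - 1 / 2)) := by gcongr
    _ = _ := by rw [one_div_pow]; field_simp; norm_num

/-- the multiplier attached to a set of primes -/
def kap (W : Finset ℕ) : ℕ := ∏ p ∈ W, p

lemma log_eq_le {p p' : ℕ} (hp' : p' ≠ 0) (h : Nat.log 2 p' = Nat.log 2 p) : p ≤ 2 * p' := by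
  have h1 := Nat.lt_pow_succ_log_self (b := 2) (by norm_num) p
  have h2 := Nat.pow_log_le_self 2 hp'
  rw [← h, pow_succ] at h1
  omega

open Classical in
lemma fam_degree {Q W : Finset ℕ} {c p L : ℕ} (hQ : ∀ p ∈ Q, p ≠ 0) (hW : W ∈ Fam Q c)
    (hp : p ∈ Q) (hpW : p ∉ W) (hL : p ∣ L) :
    c ≤ ((Fam Q c).filter (fun W' => kap W' ∣ kap W * L ∧ kap W' ≤ 2 * kap W ∧
      kap W ≤ 2 * kap W')).card := by
  have hW' := mem_fam.1 hW
  refine le_trans (le_of_eq (hW'.2.2 p hp hpW).symm) ?_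
  unfold blk
  apply card_le_card_of_injOn (fun p' => insert p (W.erase p'))
  · intro p' hp'
    simp only [coe_filter, Set.mem_ofPred_eq] at hp' ⊢
    refine ⟨fam_swap hW hp hpW hp'.1 hp'.2, ?_⟩
    have e1 : kap (insert p (W.erase p')) = p * kap (W.erase p') :=
      prod_insert (fun h => hpW (mem_of_mem_erase h))
    have e2 : kap W = p' * kap (W.erase p') := (mul_prod_erase W (fun p => p) hp'.1).symm
    have l1 := log_eq_le (hQ p' (hW'.1 hp'.1)) hp'.2
    have l2 := log_eq_le (hQ p hp) hp'.2.symm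
    rw [e1, e2]
    refine ⟨?_, by nlinarith [Nat.zero_le (kap (W.erase p'))],
      by nlinarith [Nat.zero_le (kap (W.erase p'))]⟩
    obtain ⟨L', rfl⟩ := hL
    exact ⟨p' * L', by ring⟩
  · intro x hx y hy h
    simp only [coe_filter, Set.mem_ofPred_eq] at hx hy
    by_contra hxy
    have : x ∈ insert p (W.erase y) := mem_insert_of_mem (mem_erase.2 ⟨hxy, hx.1⟩)
    simp only at h
    rw [← h, mem_insert] at this
    rcases this with h1 | h1
    · exact hpW (h1 ▸ hx.1)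
    · exact notMem_erase _ _ h1

open Classical in
/-- a heaviest multiplicative window -/
lemma exists_window {ι : Type*} (F : Finset ι) (hF : F.Nonempty) (k : ι → ℕ) (ρ : ℝ)
    (hρ : 1 ≤ ρ) (J : ℕ) (hJ : 4 * ρ ≤ ρ ^ J) :
    ∃ W₀ ∈ F, (F.filter (fun W => k W₀ ≤ 2 * k W ∧ (k W : ℝ) ≤ 2 * ρ * k W₀)).card ≤
      (J + 1) * (F.filter (fun W => k W₀ ≤ k W ∧ (k W : ℝ) ≤ ρ * k W₀)).card := by
  obtain ⟨W₀, hW₀, hmax⟩ := exists_max_image F
    (fun W₀ => (F.filter (fun W => k W₀ ≤ k W ∧ (k W : ℝ) ≤ ρ * k W₀)).card) hF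
  refine ⟨W₀, hW₀, ?_⟩
  set φ := (F.filter (fun W => k W₀ ≤ k W ∧ (k W : ℝ) ≤ ρ * k W₀)).card
  have h1 : ∀ z : ℝ, (F.filter (fun W => z ≤ k W ∧ (k W : ℝ) ≤ ρ * z)).card ≤ φ := by
    intro z
    by_cases hne : (F.filter (fun W => z ≤ k W ∧ (k W : ℝ) ≤ ρ * z)).Nonempty
    · obtain ⟨W₁, hW₁, hmin⟩ := exists_min_image _ k hne
      refine le_trans (card_le_card ?_) (hmax W₁ (mem_filter.1 hW₁).1)
      intro W hW
      have h2 := hmin W hW
      rw [mem_filter] at hW hW₁ ⊢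
      refine ⟨hW.1, h2, hW.2.2.trans ?_⟩
      have := hW₁.2.1
      gcongr
    · rw [not_nonempty_iff_eq_empty.1 hne]; simp
  have h2 : ∀ (s : ℕ) (z : ℝ),
      (F.filter (fun W => z ≤ k W ∧ (k W : ℝ) ≤ ρ ^ (s + 1) * z)).card ≤ (s + 1) * φ := by
    intro s
    induction s with
    | zero => intro z; simpa using h1 z
    | succ s ih =>
      intro z
      have hsub : F.filter (fun W => z ≤ k W ∧ (k W : ℝ) ≤ ρ ^ (s + 1 + 1) * z) ⊆
          F.filter (fun W => z ≤ k W ∧ (k W : ℝ) ≤ ρ ^ (s + 1) * z) ∪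
          F.filter (fun W => ρ ^ (s + 1) * z ≤ k W ∧ (k W : ℝ) ≤ ρ * (ρ ^ (s + 1) * z)) := by
        intro W hW
        rw [mem_filter] at hW
        rw [mem_union, mem_filter, mem_filter]
        rcases le_total (k W : ℝ) (ρ ^ (s + 1) * z) with h | h
        · exact Or.inl ⟨hW.1, hW.2.1, h⟩
        · exact Or.inr ⟨hW.1, h, hW.2.2.trans (le_of_eq (by ring))⟩
      have := (card_le_card hsub).trans (card_union_le _ _)
      have a1 := ih z
      have a2 := h1 (ρ ^ (s + 1) * z)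
      nlinarith
  refine le_trans (card_le_card ?_) (h2 J (k W₀ / 2))
  intro W hW
  rw [mem_filter] at hW ⊢
  refine ⟨hW.1, ?_, hW.2.2.trans ?_⟩
  · have : (k W₀ : ℝ) ≤ 2 * k W := by exact_mod_cast hW.2.1
    linarith
  · have h0 : (0 : ℝ) ≤ k W₀ := Nat.cast_nonneg _
    have : 4 * ρ ≤ ρ ^ (J + 1) := hJ.trans (pow_le_pow_right₀ hρ (Nat.le_succ J))
    nlinarith

end Pool.Agent.P.MP_3b6bd2_nt
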