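import Mathlib
import Pool.Agent.P.MP_3b6bd2_nt.Block
import Pool.Agent.P.MP_3b6bd2_nt.Family

/-! One protected form against the other, highly divisible, forms. -/

set_option autoImplicit false

namespace Pool.Agent.P.MP_3b6bd2_nt

open Filter Finset ArithmeticFunction

lemma kap_pos {W : Finset ℕ} (h : ∀ p ∈ W, p.Prime) : 0 < kap W :=
  prod_pos (fun p hp => (h p hp).pos)

lemma kap_squarefree {W : Finset ℕ} (h : ∀ p ∈ W, p.Prime) : Squarefree (kap W) := by
  apply Finset.squarefree_prod_of_pairwise_isCoprime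
  · intro p hp p' hp' hne
    exact Nat.coprime_iff_isRelPrime.1 ((Nat.coprime_primes (h p hp) (h p' hp')).2 hne)
  · intro p hp; exact (h p hp).prime.squarefree

lemma prime_dvd_kap {W : Finset ℕ} (h : ∀ p ∈ W, p.Prime) {p : ℕ} (hp : p.Prime) :
    p ∣ kap W ↔ p ∈ W := by
  constructor
  · intro hd
    obtain ⟨r, hr, hpr⟩ := (Prime.dvd_finsetProd_iff hp.prime _).1 hd
    rwa [(Nat.prime_dvd_prime_iff_eq hp (h r hr)).1 hpr]
  · intro hp'; exact dvd_prod_of_mem _ hp'

open Classical in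
theorem coreD (hM : PureM) (a : ℕ) (ha : 0 < a) (B' : Finset ℕ) (b₀ d : ℕ) (hd : 0 < d)
    (σ : ℝ) (hσ : |σ| ≤ 1) (δ : ℝ) (hδ : 0 < δ) :
    ∃ y₀ : ℕ, ∀ Q : Finset ℕ, (∀ p ∈ Q, p.Prime ∧ y₀ ≤ p) → ∀ (E : ℕ → Prop) (q₀ : ℕ), 0 < q₀ →
      (∀ m m', m ≡ m' [MOD q₀] → (E m ↔ E m')) → (∀ m, E m → ∀ p ∈ Q, ¬ p ∣ a * m + b₀) →
      (∀ m, E m → ∀ l ∈ B', ∃ p ∈ Q, p ∣ a * m + l) →
      UM (fun m => if E m ∧ d ^ 2 ∣ a * m + b₀ then Fd a b₀ d B' σ m else 0) δ := by
  set θ : ℝ := δ / 4 with hθ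
  have hθ0 : 0 < θ := by positivity
  set ρ : ℝ := 1 + δ / 4 with hρ
  have hρ1 : 1 < ρ := by rw [hρ]; linarith
  obtain ⟨J, hJ⟩ := pow_unbounded_of_one_lt (4 * ρ) hρ1
  obtain ⟨c, hc⟩ := exists_nat_gt (2 * (a + 1) * (J + 1) / (θ * (δ / 8)))
  have hc0 : 0 < c := by
    have : (0 : ℝ) < c := lt_of_le_of_lt (by positivity) hc
    exact_mod_cast this
  have hc' : (0 : ℝ) < c := by exact_mod_cast hc0
  obtain ⟨j₀, hj₀⟩ := pow_unbounded_of_one_lt (B'.card * a * (2 * c) / (δ / 4) : ℝ)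
    (one_lt_two : (1 : ℝ) < 2)
  refine ⟨2 ^ j₀, fun Q hQ E q₀ hq₀ hper hE1 hE2 => ?_⟩
  have hQp : ∀ p ∈ Q, p.Prime := fun p hp => (hQ p hp).1
  have hWp : ∀ W ∈ Fam Q c, ∀ p ∈ W, p.Prime := fun W hW p hp => hQp p ((mem_fam.1 hW).1 hp)
  obtain ⟨W₀, hW₀, hwin⟩ := exists_window (Fam Q c) (fam_nonempty Q c) kap ρ hρ1.le J hJ.le
  set K := kap W₀ with hKdef
  have hK : 0 < K := kap_pos (hWp W₀ hW₀)
  have hK' : (0 : ℝ) < K := by exact_mod_cast hK
  set s := (Fam Q c).filter (fun W => K ≤ kap W ∧ (kap W : ℝ) ≤ ρ * K) with hs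
  set s' := (Fam Q c).filter (fun W => K ≤ 2 * kap W ∧ (kap W : ℝ) ≤ 2 * ρ * K) with hs'
  have hs0 : W₀ ∈ s := mem_filter.2 ⟨hW₀, le_rfl, by nlinarith⟩
  have hs1 : (1 : ℝ) ≤ s.card := by exact_mod_cast card_pos.2 ⟨W₀, hs0⟩
  set P := kap Q with hP
  have hP0 : 0 < P := kap_pos hQp
  have hkP : ∀ W ∈ Fam Q c, kap W ∣ P := fun W hW =>
    prod_dvd_prod_of_subset _ _ _ (mem_fam.1 hW).1
  obtain ⟨M, hM'⟩ := exists_nat_gt (K / (θ * (δ / 8)) + B'.sup id : ℝ)
  have hM0 : 0 < M := by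
    have : (0 : ℝ) < M := lt_of_le_of_lt (by positivity) hM'
    exact_mod_cast this
  set q := M * q₀ * d ^ 2 * P * P with hq
  have hq0 : 0 < q := by positivity
  have hMq : M * P ≤ q := by
    rw [hq, show M * q₀ * d ^ 2 * P * P = M * P * (q₀ * d ^ 2 * P) by ring]
    exact Nat.le_mul_of_pos_right _ (by positivity)
  have hqk : ∀ W ∈ Fam Q c, ∃ R, q / kap W = q₀ * d ^ 2 * P * R ∧ q = kap W * (q / kap W) := by
    intro W hW
    obtain ⟨R, hR⟩ := hkP W hW
    have e : q = kap W * (q₀ * d ^ 2 * P * (M * R)) := by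
      rw [hq]; nth_rewrite 2 [hR]; ring
    refine ⟨M * R, ?_, ?_⟩
    · rw [e, Nat.mul_div_cancel_left _ (kap_pos (hWp W hW))]
    · exact (Nat.mul_div_cancel' ⟨_, e⟩).symm
  set cond : Finset ℕ → ℕ → Prop := fun W m =>
    (E m ∧ d ^ 2 ∣ a * m + b₀) ∧ ∀ l ∈ B', ∀ p ∈ W, ¬ p ∣ a * m + l with hcond
  have hb := block_bound hM a b₀ d ha hd B' σ hσ s s' kap cond K c q hK hc0 hq0 θ hθ0
    (fun W hW => by
      have hW' := (mem_filter.1 hW).1
      refine ⟨(mem_filter.1 hW).2.1, kap_squarefree (hWp W hW'), ?_⟩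
      obtain ⟨R, h1, h2⟩ := hqk W hW'
      exact ⟨q₀ * P * R, by rw [h2, h1]; ring⟩)
    (fun W hW N m => by
      have hW' := (mem_filter.1 hW).1
      obtain ⟨R, h1, -⟩ := hqk W hW'
      have t : ∀ z l, z ∣ q / kap W → (z ∣ a * (q / kap W * N + m) + l ↔ z ∣ a * m + l) := by
        intro z l hz
        rw [mul_add, add_assoc]
        exact Nat.dvd_add_right (Dvd.dvd.mul_left (Dvd.dvd.mul_right hz N) a)
      have t1 : E (q / kap W * N + m) ↔ E m := by
        apply hper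
        rw [h1, show q₀ * d ^ 2 * P * R * N + m = m + q₀ * (d ^ 2 * P * R * N) by ring]
        exact Nat.add_mul_mod_self_left _ _ _
      have t2 := t (d ^ 2) b₀ ⟨q₀ * P * R, by rw [h1]; ring⟩
      simp only [hcond]
      rw [t1, t2]
      refine and_congr Iff.rfl (forall₂_congr (fun l _ => forall₂_congr (fun p hp => ?_)))
      have : p ∣ P := dvd_prod_of_mem _ ((mem_fam.1 hW').1 hp)
      rw [t p l (by rw [h1]; exact Dvd.dvd.mul_right (Dvd.dvd.mul_left this _) _)])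
    (fun W hW m hm => by
      have hW' := (mem_filter.1 hW).1
      refine ⟨hm.1.2, Nat.Coprime.prod_left (fun p hp => ?_)⟩
      exact (Nat.Prime.coprime_iff_not_dvd (hWp W hW' p hp)).2
        (hE1 m hm.1.1 p ((mem_fam.1 hW').1 hp)))
    (fun W hW W' hW' m m' hm hm' e => by
      have h1 := (mem_filter.1 hW).1
      have h2 := (mem_filter.1 hW').1
      have t : ∀ W W' m m', W ∈ Fam Q c → W' ∈ Fam Q c → E m' →
          kap W * (a * m + b₀) = kap W' * (a * m' + b₀) → W ⊆ W' := by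
        intro W W' m m' h1 h2 hm' e p hp
        have hpp := hWp W h1 p hp
        have : p ∣ kap W' * (a * m' + b₀) := by
          rw [← e]; exact Dvd.dvd.mul_right (dvd_prod_of_mem _ hp) _
        rcases (Nat.Prime.dvd_mul hpp).1 this with h | h
        · exact (prime_dvd_kap (hWp W' h2) hpp).1 h
        · exact absurd h (hE1 m' hm' p ((mem_fam.1 h1).1 hp))
      exact Subset.antisymm (t W W' m m' h1 h2 hm'.1.1 e) (t W' W m' m h2 h1 hm.1.1 e.symm))
    (fun W hW m hm l hl => by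
      obtain ⟨h1, h2, h3⟩ := mem_filter.1 hW
      obtain ⟨p, hp, hpl⟩ := hE2 m hm.1.1 l hl
      refine (fam_degree (fun p hp => (hQp p hp).ne_zero) h1 hp
        (fun h => hm.2 l hl p h hpl) hpl).trans (card_le_card ?_)
      intro W' hW'
      obtain ⟨g1, g2, g3, g4⟩ := mem_filter.1 hW'
      refine mem_filter.2 ⟨mem_filter.2 ⟨g1, h2.trans g4, ?_⟩, g2⟩
      have : (kap W' : ℝ) ≤ 2 * kap W := by exact_mod_cast g3
      linarith)
    (fun W hW => by
      obtain ⟨h1, h2, -⟩ := mem_filter.1 hW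
      obtain ⟨R, -, h3⟩ := hqk W h1
      exact ⟨⟨_, h3⟩, h2⟩)
    (fun W hW l hl => by
      have h1 := Nat.le_of_dvd hP0 (hkP W (mem_filter.1 hW).1)
      have h2 : l ≤ B'.sup id := le_sup (f := id) hl
      have h3 : B'.sup id ≤ M := by
        have : ((B'.sup id : ℕ) : ℝ) ≤ M := by
          have : (0 : ℝ) ≤ K / (θ * (δ / 8)) := by positivity
          linarith
        exact_mod_cast this
      exact (Nat.mul_le_mul (h2.trans h3) h1).trans hMq)
  have hdil := UM.dilate s kap (fun W m => @ite ℝ (cond W m) (propDecidable _) (Fd a b₀ d B' σ m) 0)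
    K hK ρ hρ1.le
    (fun W hW => (mem_filter.1 hW).2.1) (fun W hW => (mem_filter.1 hW).2.2)
    (fun W _ m => by
      split_ifs
      · exact (le_abs_self _).trans (abs_Fd_le _ _ _ _ hσ _)
      · norm_num) hb
  have hbad : ∀ W ∈ s, UM (fun m => ∑ l ∈ B', ∑ p ∈ W, (if p ∣ a * m + l then 1 else 0 : ℝ))
      (δ / 4) := by
    intro W hW
    have hW' := (mem_filter.1 hW).1
    have h1 := UM.sum B' _ _ (fun l _ => UM.sum W _ _
      (fun p hp => UM.dvd p (hWp W hW' p hp).pos a l ha))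
    refine h1.le ?_
    rw [sum_const, nsmul_eq_mul, ← mul_sum]
    have h2 := fam_recip hW' (fun p hp => (hQ p hp).2)
    rw [div_lt_iff₀ (by positivity)] at hj₀
    calc (B'.card : ℝ) * (a * ∑ p ∈ W, (1 / p : ℝ)) ≤ B'.card * (a * (2 * c / 2 ^ j₀)) := by gcongr
      _ = B'.card * a * (2 * c) / 2 ^ j₀ := by ring
      _ ≤ δ / 4 := by rw [div_le_iff₀ (by positivity)]; linarith
  have htot := (hdil.add (UM.sum s _ _ hbad)).smul (k := 1 / s.card) (by positivity)
  refine (htot.mono 0 (fun m _ => ?_)).le ?_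
  · rw [← sum_add_distrib, one_div_mul_eq_div, le_div_iff₀ (by positivity), mul_comm,
      ← nsmul_eq_mul, ← sum_const]
    apply sum_le_sum
    intro W _
    have h0 : 0 ≤ ∑ l ∈ B', ∑ p ∈ W, (if p ∣ a * m + l then 1 else 0 : ℝ) :=
      sum_nonneg (fun _ _ => sum_nonneg (fun _ _ => by split_ifs <;> norm_num))
    by_cases h1 : E m ∧ d ^ 2 ∣ a * m + b₀
    · rw [if_pos h1]
      by_cases h2 : cond W m
      · rw [if_pos h2]; linarith
      · rw [if_neg h2]
        have h3 : ∃ l ∈ B', ∃ p ∈ W, p ∣ a * m + l := by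
          by_contra h3
          exact h2 ⟨h1, fun l hl p hp h => h3 ⟨l, hl, p, hp, h⟩⟩
        obtain ⟨l, hl, p, hp, h3⟩ := h3
        have h4 : (1 : ℝ) ≤ ∑ p ∈ W, (if p ∣ a * m + l then 1 else 0 : ℝ) := by
          have := single_le_sum (f := fun p => (if p ∣ a * m + l then 1 else 0 : ℝ))
            (fun _ _ => by split_ifs <;> norm_num) hp
          simpa [h3] using this
        have h5 := single_le_sum
          (f := fun l => ∑ p ∈ W, (if p ∣ a * m + l then 1 else 0 : ℝ))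
          (fun _ _ => sum_nonneg (fun _ _ => by split_ifs <;> norm_num)) hl
        have h6 := (le_abs_self _).trans (abs_Fd_le a b₀ d B' hσ m)
        linarith
    · rw [if_neg h1, if_neg (fun h => h1 h.1)]; linarith
  · rw [sum_const, nsmul_eq_mul, one_div_mul_eq_div, div_le_iff₀ (by positivity)]
    have hq' : (0 : ℝ) < q := by exact_mod_cast hq0
    have hw : (s'.card : ℝ) ≤ (J + 1) * s.card := by exact_mod_cast hwin
    have t1 : K * (2 * (a + 1) * s'.card / (K * c * θ)) ≤ δ / 8 * s.card := by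
      have e : K * (2 * (a + 1) * s'.card / (K * c * θ)) = 2 * (a + 1) * s'.card / (c * θ) := by
        field_simp
      rw [e, div_le_iff₀ (by positivity)]
      rw [div_lt_iff₀ (by positivity)] at hc
      calc 2 * (a + 1) * (s'.card : ℝ) ≤ 2 * (a + 1) * ((J + 1) * s.card) := by gcongr
        _ = 2 * (a + 1) * (J + 1) * s.card := by ring
        _ ≤ c * (θ * (δ / 8)) * s.card := by gcongr
        _ = _ := by ring
    have t2 : K * (θ * s.card / (2 * K)) = δ / 8 * s.card := by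
      rw [hθ]; field_simp; norm_num
    have t3 : K * (1 / (θ * q)) ≤ δ / 8 * s.card := by
      have h1 : (M : ℝ) ≤ q := by
        have : M ≤ q := (Nat.le_mul_of_pos_right _ hP0).trans hMq
        exact_mod_cast this
      have h2 : K / (θ * (δ / 8)) ≤ q := by
        have : (0 : ℝ) ≤ (B'.sup id : ℕ) := Nat.cast_nonneg _
        linarith
      rw [div_le_iff₀ (by positivity)] at h2
      rw [mul_one_div, div_le_iff₀ (by positivity)]
      have h3 : δ / 8 * (θ * q) ≤ δ / 8 * s.card * (θ * q) := by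
        have : 0 ≤ δ / 8 * (θ * q) := by positivity
        nlinarith
      nlinarith
    rw [mul_add, mul_add, hρ]
    have : 0 ≤ δ * s.card := by positivity
    nlinarith

end Pool.Agent.P.MP_3b6bd2_nt
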