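import Mathlib
import Pool.Agent.P.MP_3b6bd2_nt.Core

/-! From Moebius to Liouville at the protected form; densities of the exceptional sets. -/

set_option autoImplicit false

namespace Pool.Agent.P.MP_3b6bd2_nt

open Filter Finset ArithmeticFunction

open Classical in
lemma lam_decomp {u : ℕ} (hu : 0 < u) (D : ℕ) :
    |lam u - ∑ d ∈ Icc 1 D, (if d ^ 2 ∣ u then mu (u / d ^ 2) else 0)| ≤
      if u ≠ 0 ∧ ∃ d, D < d ∧ d ^ 2 ∣ u then 1 else 0 := by
  obtain ⟨s, e, hs, he, rfl, hsq⟩ := Nat.sq_mul_squarefree_of_pos hu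
  have h1 : lam (e ^ 2 * s) = mu s := by
    rw [lam_mul, sq, lam_mul, lam_sq he.ne', one_mul]
    unfold lam mu
    rw [liouville_apply hs.ne', moebius_apply_of_squarefree hsq]
  have h2 : ∀ d, 0 < d → d ≠ e → (if d ^ 2 ∣ e ^ 2 * s then mu (e ^ 2 * s / d ^ 2) else 0) = 0 := by
    intro d hd hne
    split_ifs with h
    · obtain ⟨t, ht⟩ := h
      rw [ht, Nat.mul_div_cancel_left _ (by positivity)]
      unfold mu
      rw [moebius_eq_zero_of_not_squarefree, Int.cast_zero]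
      intro htq
      apply hne
      have g : ∀ x y u v : ℕ, 0 < x → 0 < y → Squarefree v → x ^ 2 * u = y ^ 2 * v → x ∣ y := by
        intro x y u v hx hy hv h
        obtain ⟨x', y', g, hg, hc, rfl, rfl⟩ : ∃ x' y' g : ℕ, 0 < g ∧ Nat.Coprime x' y' ∧
            x = x' * g ∧ y = y' * g := by
          obtain ⟨g, x', y', h1, h2, h3, h4⟩ := Nat.exists_coprime' (m := x) (n := y)
            (Nat.gcd_pos_of_pos_left _ hx)
          exact ⟨x', y', g, h1, h2, h3, h4⟩
        have h3 : x' ^ 2 * u = y' ^ 2 * v := by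
          apply Nat.eq_of_mul_eq_mul_left (show 0 < g ^ 2 by positivity)
          calc _ = (x' * g) ^ 2 * u := by ring
            _ = (y' * g) ^ 2 * v := h
            _ = _ := by ring
        have h4 : x' * x' ∣ v := by
          rw [← sq]
          exact (Nat.Coprime.pow 2 2 hc).dvd_of_dvd_mul_left ⟨u, h3.symm⟩
        have h5 := Nat.isUnit_iff.1 (hv x' h4)
        rw [h5]
        exact ⟨y', by ring⟩
      exact Nat.dvd_antisymm (g d e t s hd he hsq ht.symm) (g e d s t he hd htq ht)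
    · rfl
  by_cases hD : e ≤ D
  · rw [sum_eq_single e (fun d hd hne => h2 d (mem_Icc.1 hd).1 hne)
      (fun h => absurd (mem_Icc.2 ⟨he, hD⟩) h), if_pos (Dvd.intro _ rfl),
      Nat.mul_div_cancel_left _ (by positivity), h1, sub_self, abs_zero]
    split_ifs <;> norm_num
  · rw [sum_eq_zero (fun d hd => h2 d (mem_Icc.1 hd).1 (by have := (mem_Icc.1 hd).2; omega)),
      sub_zero, if_pos ⟨hu.ne', e, not_le.1 hD, Dvd.intro _ rfl⟩]
    exact abs_lam_le _

open Classical in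
lemma um_tail (D : ℕ) :
    UM (fun u => if u ≠ 0 ∧ ∃ d, D < d ∧ d ^ 2 ∣ u then 1 else 0) (2 / (D + 1)) := by
  intro ε hε
  filter_upwards with y
  have h0 : (0 : ℝ) ≤ y := Nat.cast_nonneg y
  calc ∑ u ∈ range y, (if u ≠ 0 ∧ ∃ d, D < d ∧ d ^ 2 ∣ u then 1 else 0 : ℝ)
      ≤ ∑ u ∈ range y, ∑ d ∈ Ioo D y, (if u ≠ 0 ∧ d ^ 2 ∣ u then 1 else 0 : ℝ) := by
        apply sum_le_sum
        intro u hu
        have hn : ∀ d ∈ Ioo D y, (0 : ℝ) ≤ if u ≠ 0 ∧ d ^ 2 ∣ u then 1 else 0 :=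
          fun _ _ => by split_ifs <;> norm_num
        split_ifs with h
        · obtain ⟨h1, d, h2, h3⟩ := h
          have h4 := Nat.le_of_dvd (Nat.pos_of_ne_zero h1) h3
          have h5 := mem_range.1 hu
          have := single_le_sum hn (mem_Ioo.2 ⟨h2, by nlinarith⟩ : d ∈ Ioo D y)
          rwa [if_pos ⟨h1, h3⟩] at this
        · exact sum_nonneg hn
    _ = ∑ d ∈ Ioo D y, ∑ u ∈ range y, (if u ≠ 0 ∧ d ^ 2 ∣ u then 1 else 0 : ℝ) := sum_comm
    _ ≤ ∑ d ∈ Ioo D y, ((d : ℝ) ^ 2)⁻¹ * y := by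
        apply sum_le_sum
        intro d _
        rw [sum_boole]
        have h1 : ((range y).filter (fun u => u ≠ 0 ∧ d ^ 2 ∣ u)).card ≤ y / d ^ 2 := by
          rw [← Nat.Ioc_filter_dvd_card_eq_div]
          apply card_le_card
          intro u hu
          rw [mem_filter, mem_range] at hu
          exact mem_filter.2 ⟨mem_Ioc.2 ⟨Nat.pos_of_ne_zero hu.2.1, hu.1.le⟩, hu.2.2⟩
        calc _ ≤ ((y / d ^ 2 : ℕ) : ℝ) := by exact_mod_cast h1
          _ ≤ (y : ℝ) / (d ^ 2 : ℕ) := Nat.cast_div_le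
          _ = _ := by push_cast; rw [div_eq_inv_mul]
    _ ≤ 2 / (D + 1) * y := by
        rw [← sum_mul]; gcongr; exact sum_Ioo_inv_sq_le D y
    _ ≤ _ := by gcongr; linarith

open Classical in
theorem coreC (hM : PureM) (a : ℕ) (ha : 0 < a) (B' : Finset ℕ) (b₀ : ℕ)
    (σ : ℝ) (hσ : |σ| ≤ 1) (δ : ℝ) (hδ : 0 < δ) :
    ∃ y₀ : ℕ, ∀ Q : Finset ℕ, (∀ p ∈ Q, p.Prime ∧ y₀ ≤ p) → ∀ (E : ℕ → Prop) (q₀ : ℕ), 0 < q₀ →
      (∀ m m', m ≡ m' [MOD q₀] → (E m ↔ E m')) → (∀ m, E m → ∀ p ∈ Q, ¬ p ∣ a * m + b₀) →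
      (∀ m, E m → ∀ l ∈ B', ∃ p ∈ Q, p ∣ a * m + l) →
      UM (fun m => if E m then σ * lam (a * m + b₀) * ∏ l ∈ B', lam (a * m + l) else 0) δ := by
  obtain ⟨D, hD⟩ := exists_nat_gt (4 * a / δ : ℝ)
  have hD0 : (0 : ℝ) < D := lt_of_le_of_lt (by positivity) hD
  have h1 : ∀ d : ℕ, ∃ y₀ : ℕ, 0 < d → _ := fun d => by
    by_cases hd : 0 < d
    · obtain ⟨y, hy⟩ := coreD hM a ha B' b₀ d hd σ hσ (δ / 2 / D) (by positivity)
      exact ⟨y, fun _ => hy⟩
    · exact ⟨0, fun h => absurd h hd⟩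
  choose y hy using h1
  refine ⟨(Icc 1 D).sup y, fun Q hQ E q₀ hq₀ hper hE1 hE2 => ?_⟩
  have h2 := UM.sum (Icc 1 D) _ _ (fun d hd => hy d (mem_Icc.1 hd).1 Q
    (fun p hp => ⟨(hQ p hp).1, (le_sup (f := y) hd).trans (hQ p hp).2⟩) E q₀ hq₀ hper hE1 hE2)
  have h3 := (um_tail D).pullback (fun u => by split_ifs <;> norm_num) (by positivity) a b₀ ha
  refine ((h2.add h3).mono 1 (fun m hm => ?_)).le ?_
  · have hu : 0 < a * m + b₀ := by positivity
    have h4 := lam_decomp hu D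
    by_cases hE : E m
    · rw [if_pos hE]
      have h5 : ∑ d ∈ Icc 1 D, (if E m ∧ d ^ 2 ∣ a * m + b₀ then Fd a b₀ d B' σ m else 0) =
          σ * (∑ d ∈ Icc 1 D, (if d ^ 2 ∣ a * m + b₀ then mu ((a * m + b₀) / d ^ 2) else 0)) *
            ∏ l ∈ B', lam (a * m + l) := by
        rw [mul_sum, sum_mul]
        refine sum_congr rfl (fun d _ => ?_)
        by_cases h : d ^ 2 ∣ a * m + b₀
        · rw [if_pos ⟨hE, h⟩, if_pos h]; rfl
        · rw [if_neg (fun h' => h h'.2), if_neg h]; simp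
      rw [h5]
      have h6 := abs_prod_le_one B' (fun l => lam (a * m + l)) (fun _ _ => abs_lam_le _)
      generalize (∑ d ∈ Icc 1 D, (if d ^ 2 ∣ a * m + b₀ then mu ((a * m + b₀) / d ^ 2) else 0))
        = X at h4 ⊢
      generalize (∏ l ∈ B', lam (a * m + l)) = Y at h6 ⊢
      have h7 : σ * lam (a * m + b₀) * Y - σ * X * Y ≤ |lam (a * m + b₀) - X| := by
        calc _ = (σ * Y) * (lam (a * m + b₀) - X) := by ring
          _ ≤ |(σ * Y) * (lam (a * m + b₀) - X)| := le_abs_self _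
          _ ≤ 1 * |lam (a * m + b₀) - X| := by
              rw [abs_mul]; gcongr; exact abs_mul_le_one hσ h6
          _ = _ := one_mul _
      linarith
    · rw [if_neg hE, sum_eq_zero (fun d _ => if_neg (fun h => hE h.1))]
      have := (abs_nonneg _).trans h4
      linarith
  · rw [sum_const, Nat.card_Icc, nsmul_eq_mul, Nat.add_sub_cancel]
    have e1 : (D : ℝ) * (δ / 2 / D) = δ / 2 := by field_simp
    have e2 : (a : ℝ) * (2 / (D + 1)) ≤ δ / 2 := by
      rw [div_lt_iff₀ hδ] at hD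
      rw [mul_div_assoc', div_le_iff₀ (by positivity)]
      nlinarith
    linarith

lemma totient_kap (Q : Finset ℕ) (hQ : ∀ p ∈ Q, p.Prime) :
    (Nat.totient (kap Q) : ℝ) ≤ kap Q * Real.exp (-∑ p ∈ Q, (1 / p : ℝ)) := by
  induction Q using Finset.induction_on with
  | empty => simp [kap]
  | insert p Q hp ih =>
    have hpp := hQ p (mem_insert_self _ _)
    have hQ' : ∀ p ∈ Q, p.Prime := fun r hr => hQ r (mem_insert_of_mem hr)
    have e : kap (insert p Q) = p * kap Q := prod_insert hp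
    have hc : Nat.Coprime p (kap Q) := (Nat.Prime.coprime_iff_not_dvd hpp).2
      (fun h => hp ((prime_dvd_kap hQ' hpp).1 h))
    rw [e, Nat.totient_mul hc, Nat.totient_prime hpp, sum_insert hp, neg_add, Real.exp_add]
    have hp0 : (0 : ℝ) < p := by exact_mod_cast hpp.pos
    have h1 : ((p - 1 : ℕ) : ℝ) ≤ p * Real.exp (-(1 / p)) := by
      rw [Nat.cast_sub hpp.one_le]
      have := Real.add_one_le_exp (-(1 / p : ℝ))
      calc (p : ℝ) - (1 : ℕ) = p * (-(1 / p) + 1) := by push_cast; field_simp; ring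
        _ ≤ _ := by gcongr
    push_cast
    calc ((p - 1 : ℕ) : ℝ) * Nat.totient (kap Q)
        ≤ (p * Real.exp (-(1 / p))) * (kap Q * Real.exp (-∑ p ∈ Q, (1 / p : ℝ))) := by
          gcongr; exact ih hQ'
      _ = _ := by ring

open Classical in
lemma um_coprime (Q : Finset ℕ) (hQ : ∀ p ∈ Q, p.Prime) :
    UM (fun u => if ∃ p ∈ Q, p ∣ u then 0 else 1) (Real.exp (-∑ p ∈ Q, (1 / p : ℝ))) := by
  have hP := kap_pos hQ
  have hP' : (0 : ℝ) < kap Q := by exact_mod_cast hP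
  refine (UM.blocks (B := 1) (C := Nat.totient (kap Q)) hP ?_ ?_).le ?_
  · intro n; split_ifs <;> norm_num
  · refine (UM.const _).mono 0 (fun N _ => ?_)
    rw [Nat.totient, ← sum_boole]
    apply sum_le_sum
    intro h _
    by_cases h1 : ∃ p ∈ Q, p ∣ kap Q * N + h
    · rw [if_pos h1]; split_ifs <;> norm_num
    · rw [if_neg h1, if_pos]
      refine Nat.Coprime.prod_left (fun p hp => (Nat.Prime.coprime_iff_not_dvd (hQ p hp)).2 ?_)
      intro h2
      exact h1 ⟨p, hp, Dvd.dvd.add (Dvd.dvd.mul_right (dvd_prod_of_mem _ hp) _) h2⟩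
  · rw [div_le_iff₀ hP', mul_comm]; exact totient_kap Q hQ

open Classical in
lemma um_pair {p p' : ℕ} (hp : p.Prime) (hp' : p'.Prime) (a l l' : ℕ) (ha : 0 < a) (h1 : a < p)
    (h2 : a < p') (hl : l < p) (hl' : l' < p) (hne : l ≠ l') :
    UM (fun m => if p ∣ a * m + l ∧ p' ∣ a * m + l' then 1 else 0) (1 / p * (1 / p')) := by
  have t : ∀ r b m m', r.Prime → a < r → r ∣ a * m + b → r ∣ a * m' + b → m ≡ m' [MOD r] := by
    intro r b m m' hr har h h'
    have e : a * m + b ≡ a * m' + b [MOD r] :=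
      ((Nat.modEq_zero_iff_dvd).2 h).trans ((Nat.modEq_zero_iff_dvd).2 h').symm
    refine Nat.ModEq.cancel_left_of_coprime ?_ (Nat.ModEq.add_right_cancel' b e)
    exact (Nat.Prime.coprime_iff_not_dvd hr).2 (Nat.not_dvd_of_pos_of_lt ha har)
  by_cases hpp : p = p'
  · subst hpp
    refine ((UM.const 0).mono 0 (fun m _ => ?_)).le (by positivity)
    rw [if_neg]
    rintro ⟨h, h'⟩
    have e : a * m + l ≡ a * m + l' [MOD p] :=
      ((Nat.modEq_zero_iff_dvd).2 h).trans ((Nat.modEq_zero_iff_dvd).2 h').symm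
    exact hne (Nat.ModEq.eq_of_lt_of_lt (Nat.ModEq.add_left_cancel' _ e) hl hl')
  · have := UM.of_modEq (fun m => p ∣ a * m + l ∧ p' ∣ a * m + l') (p * p')
      (Nat.mul_pos hp.pos hp'.pos) (fun m m' h h' =>
        (Nat.modEq_and_modEq_iff_modEq_mul ((Nat.coprime_primes hp hp').2 hpp)).1
          ⟨t p l m m' hp h1 h.1 h'.1, t p' l' m m' hp' h2 h.2 h'.2⟩)
    convert this using 1
    · funext m; congr
    · push_cast; rw [one_div_mul_one_div]

/-- primes in `[u, v)` -/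
def PR (u v : ℕ) : Finset ℕ := (Ico u v).filter Nat.Prime

lemma mem_PR {u v p : ℕ} : p ∈ PR u v ↔ (u ≤ p ∧ p < v) ∧ p.Prime := by
  unfold PR; rw [mem_filter, mem_Ico]

/-- sum of reciprocals of primes in `[u, v)` -/
noncomputable def mass (u v : ℕ) : ℝ := ∑ p ∈ PR u v, (1 / p : ℝ)

lemma mass_eq (u v : ℕ) : mass u v = ∑ n ∈ Ico u v, if n.Prime then (1 / n : ℝ) else 0 := by
  unfold mass PR; rw [sum_filter]

lemma mass_add {u v w : ℕ} (h : u ≤ v) (h' : v ≤ w) : mass u v + mass v w = mass u w := by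
  simp only [mass_eq]; exact sum_Ico_consecutive _ h h'

lemma exists_generation (η : ℝ) (hη : 0 < η) (u : ℕ) (hu : 1 / η ≤ u) :
    ∃ v, u ≤ v ∧ η ≤ mass u v ∧ mass u v ≤ 2 * η := by
  classical
  have hex : ∃ v, u ≤ v ∧ η ≤ mass u v := by
    have h1 := (not_summable_iff_tendsto_nat_atTop_of_nonneg
      (f := Set.indicator {p | p.Prime} (fun n : ℕ => (1 : ℝ) / n))
      (fun n => Set.indicator_nonneg (fun _ _ => by positivity) n)).1
      not_summable_one_div_on_primes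
    have h2 : ∀ v, ∑ i ∈ range v, Set.indicator {p | p.Prime} (fun n : ℕ => (1 : ℝ) / n) i
        = mass 0 v := by
      intro v
      rw [mass_eq, range_eq_Ico]
      refine sum_congr rfl (fun n _ => ?_)
      rw [Set.indicator_apply]; rfl
    simp only [h2] at h1
    obtain ⟨v, hv1, hv2⟩ := ((h1.eventually_ge_atTop (mass 0 u + η)).and
      (eventually_ge_atTop u)).exists
    have := mass_add (Nat.zero_le u) hv2
    exact ⟨v, hv2, by linarith⟩
  have h1 := Nat.find_spec hex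
  have h2 : ∀ w, w < Nat.find hex → ¬ (u ≤ w ∧ η ≤ mass u w) := fun w hw => Nat.find_min hex hw
  generalize Nat.find hex = v at h1 h2
  refine ⟨v, h1.1, h1.2, ?_⟩
  rcases h1.1.eq_or_lt with h | h
  · rw [← h, mass_eq]; simp; positivity
  · obtain ⟨w, rfl⟩ : ∃ w, v = w + 1 := ⟨v - 1, by omega⟩
    have h3 : mass u w < η := by
      by_contra h4
      exact h2 w (by omega) ⟨by omega, not_lt.1 h4⟩
    have h4 : mass w (w + 1) ≤ η := by
      rw [mass_eq, Nat.Ico_succ_singleton, sum_singleton]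
      have hu0 : (0 : ℝ) < u := lt_of_lt_of_le (by positivity) hu
      have hw : (u : ℝ) ≤ w := by exact_mod_cast (by omega : u ≤ w)
      split_ifs
      · rw [div_le_iff₀ (by linarith)]
        rw [div_le_iff₀ hη] at hu
        nlinarith
      · exact hη.le
    have := mass_add (show u ≤ w by omega) (Nat.le_succ w)
    linarith

lemma exists_generations (η : ℝ) (hη : 0 < η) (u : ℕ) (hu : 1 / η ≤ u) :
    ∃ y : ℕ → ℕ, y 0 = u ∧ Monotone y ∧
      ∀ γ, η ≤ mass (y γ) (y (γ + 1)) ∧ mass (y γ) (y (γ + 1)) ≤ 2 * η := by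
  have h : ∀ w : ℕ, ∃ v, u ≤ w → (w ≤ v ∧ η ≤ mass w v ∧ mass w v ≤ 2 * η) := by
    intro w
    by_cases hw : u ≤ w
    · obtain ⟨v, hv⟩ := exists_generation η hη w (hu.trans (by exact_mod_cast hw))
      exact ⟨v, fun _ => hv⟩
    · exact ⟨0, fun h => absurd h hw⟩
  choose nx hnx using h
  have h1 : ∀ γ, u ≤ nx^[γ] u := by
    intro γ
    induction γ with
    | zero => exact le_rfl
    | succ γ ih => rw [Function.iterate_succ_apply']; exact ih.trans (hnx _ ih).1
  refine ⟨fun γ => nx^[γ] u, rfl, monotone_nat_of_le_succ (fun γ => ?_), fun γ => ?_⟩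
  · simp only [Function.iterate_succ_apply']; exact (hnx _ (h1 γ)).1
  · simp only [Function.iterate_succ_apply']; exact (hnx _ (h1 γ)).2

end Pool.Agent.P.MP_3b6bd2_nt
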