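import Mathlib
import Pool.Agent.P.MP_3b6bd2_nt.Liou

/-! The main estimate: pure Moebius correlations control Liouville correlations. -/

set_option autoImplicit false

namespace Pool.Agent.P.MP_3b6bd2_nt

open Filter Finset ArithmeticFunction

lemma classes (B : Finset ℕ) (hB : 2 ≤ B.card) (G : ℕ) (A : ℕ → ℕ → Prop)
    (htop : ∀ l, ¬ A l G) (h0 : ∀ l ∈ B, A l 0)
    (hone : ∀ γ < G, ∀ l ∈ B, ∀ l' ∈ B, l ≠ l' → A l γ → ¬ A l (γ + 1) → A l' γ →
      ¬ A l' (γ + 1) → False) :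
    ∃ i ∈ B, ∃ γ < G, ¬ A i γ ∧ (∀ l ∈ B.erase i, A l γ) ∧ ¬ ∀ l ∈ B.erase i, A l (γ + 1) := by
  classical
  have hG : ∃ l ∈ B, ∃ l' ∈ B, l ≠ l' ∧ ¬ A l G ∧ ¬ A l' G := by
    obtain ⟨l, hl, l', hl', hne⟩ := one_lt_card.1 hB
    exact ⟨l, hl, l', hl', hne, htop l, htop l'⟩
  have hex : ∃ γ, ∃ l ∈ B, ∃ l' ∈ B, l ≠ l' ∧ ¬ A l γ ∧ ¬ A l' γ := ⟨G, hG⟩
  have h1 := Nat.find_spec hex
  have h2 : ∀ w, w < Nat.find hex → ¬ ∃ l ∈ B, ∃ l' ∈ B, l ≠ l' ∧ ¬ A l w ∧ ¬ A l' w :=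
    fun w hw => Nat.find_min hex hw
  have h3 : Nat.find hex ≤ G := Nat.find_min' hex hG
  generalize Nat.find hex = n at h1 h2 h3
  obtain ⟨l, hl, l', hl', hne, a1, a2⟩ := h1
  rcases n with _ | γ
  · exact absurd (h0 l hl) a1
  have key : ∀ l ∈ B, ∀ l' ∈ B, l ≠ l' → ¬ A l γ → ¬ A l' (γ + 1) →
      ∃ i ∈ B, ∃ γ < G, ¬ A i γ ∧ (∀ l ∈ B.erase i, A l γ) ∧ ¬ ∀ l ∈ B.erase i, A l (γ + 1) := by
    intro l hl l' hl' hne b1 b2
    refine ⟨l, hl, γ, by omega, b1, fun x hx => ?_, fun h => b2 (h l' (mem_erase.2 ⟨hne.symm, hl'⟩))⟩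
    by_contra hx'
    exact h2 γ (by omega) ⟨x, (mem_erase.1 hx).2, l, hl, (mem_erase.1 hx).1, hx', b1⟩
  by_cases c1 : A l γ
  · by_cases c2 : A l' γ
    · exact (hone γ (by omega) l hl l' hl' hne c1 a1 c2 a2).elim
    · exact key l' hl' l hl hne.symm c2 a1
  · exact key l hl l' hl' hne c1 a2

lemma classes_unique (B : Finset ℕ) (A : ℕ → ℕ → Prop)
    (mono : ∀ l γ γ', γ ≤ γ' → A l γ' → A l γ) {i i' γ γ' : ℕ} (hi : i ∈ B) (hi' : i' ∈ B)
    (h : ¬ A i γ ∧ (∀ l ∈ B.erase i, A l γ) ∧ ¬ ∀ l ∈ B.erase i, A l (γ + 1))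
    (h' : ¬ A i' γ' ∧ (∀ l ∈ B.erase i', A l γ') ∧ ¬ ∀ l ∈ B.erase i', A l (γ' + 1)) :
    i = i' ∧ γ = γ' := by
  have key : ∀ {i i' γ γ' : ℕ}, i ∈ B → i' ∈ B →
      (¬ A i γ ∧ (∀ l ∈ B.erase i, A l γ) ∧ ¬ ∀ l ∈ B.erase i, A l (γ + 1)) →
      (¬ A i' γ' ∧ (∀ l ∈ B.erase i', A l γ') ∧ ¬ ∀ l ∈ B.erase i', A l (γ' + 1)) →
      γ ≤ γ' → i = i' ∧ ¬ γ < γ' := by
    intro i i' γ γ' hi hi' h h' hle
    have e : i = i' := by
      by_contra hne
      exact h.1 (mono _ _ _ hle (h'.2.1 i (mem_erase.2 ⟨hne, hi⟩)))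
    subst e
    exact ⟨rfl, fun hlt => h.2.2 (fun l hl => mono _ _ _ hlt (h'.2.1 l hl))⟩
  rcases le_total γ γ' with hle | hle
  · have := key hi hi' h h' hle
    exact ⟨this.1, by omega⟩
  · have := key hi' hi h' h hle
    exact ⟨this.1.symm, by omega⟩

open Classical in
theorem main_upper (hM : PureM) (a : ℕ) (ha : 0 < a) (B : Finset ℕ) (hB : B.Nonempty)
    (σ : ℝ) (hσ : |σ| ≤ 1) : UM (fun m => σ * ∏ l ∈ B, lam (a * m + l)) 0 := by
  refine UM.of_forall (fun δ hδ => ?_)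
  rw [zero_add]
  have hr1 : 1 ≤ B.card := card_pos.2 hB
  rcases hr1.eq_or_lt with h1 | h2
  · obtain ⟨b, rfl⟩ := card_eq_one.1 h1.symm
    obtain ⟨y₀, hy⟩ := coreC hM a ha ∅ b σ hσ δ hδ
    have := hy ∅ (by simp) (fun _ => True) 1 one_pos (by simp) (by simp) (by simp)
    simpa using this
  set r : ℝ := (B.card : ℝ) with hr
  have hr0 : 0 < r := by rw [hr]; exact_mod_cast hr1
  obtain ⟨M, hMM⟩ := exists_nat_gt (3 * (r * a + 4 * r ^ 2) / δ)
  have hM0 : (0 : ℝ) < M := lt_of_le_of_lt (by positivity) hMM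
  set η : ℝ := 1 / M ^ 2 with hη
  have hη0 : 0 < η := by positivity
  set G := M ^ 3 with hG
  have hG0 : (0 : ℝ) < G := by rw [hG]; push_cast; positivity
  choose y₀ hy₀ using fun i => coreC hM a ha (B.erase i) i σ hσ (δ / 3 / (r * G)) (by positivity)
  set u := B.sup y₀ + M ^ 2 + a + B.sup id + 1 with hu
  obtain ⟨y, hy0, hmono, hmass⟩ := exists_generations η hη0 u (by
    rw [hη, one_div_one_div]
    have : M ^ 2 ≤ u := by omega
    exact_mod_cast this)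
  have hge : ∀ γ γ' p, p ∈ PR (y γ) (y γ') → p.Prime ∧ u ≤ p := fun γ γ' p hp =>
    ⟨(mem_PR.1 hp).2, hy0 ▸ (hmono (Nat.zero_le γ)).trans (mem_PR.1 hp).1.1⟩
  set A : ℕ → ℕ → ℕ → Prop := fun m l γ => ∃ p ∈ PR (y γ) (y G), p ∣ a * m + l with hA
  have Amono : ∀ m l γ γ', γ ≤ γ' → A m l γ' → A m l γ := by
    rintro m l γ γ' h ⟨p, hp, hd⟩
    rw [mem_PR] at hp
    exact ⟨p, mem_PR.2 ⟨⟨(hmono h).trans hp.1.1, hp.1.2⟩, hp.2⟩, hd⟩
  set E : ℕ → ℕ → ℕ → Prop := fun i γ m =>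
    ¬ A m i γ ∧ (∀ l ∈ B.erase i, A m l γ) ∧ ¬ ∀ l ∈ B.erase i, A m l (γ + 1) with hE
  have hP0 : 0 < kap (PR (y 0) (y G)) := kap_pos (fun p hp => (mem_PR.1 hp).2)
  have Aper : ∀ m m', m ≡ m' [MOD kap (PR (y 0) (y G))] → ∀ l γ, (A m l γ ↔ A m' l γ) := by
    intro m m' h l γ
    refine exists_congr (fun p => and_congr_right (fun hp => ?_))
    have hp' : p ∈ PR (y 0) (y G) := by
      rw [mem_PR] at hp ⊢
      exact ⟨⟨(hmono (Nat.zero_le γ)).trans hp.1.1, hp.1.2⟩, hp.2⟩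
    have h1 : a * m + l ≡ a * m' + l [MOD p] :=
      ((h.of_dvd (dvd_prod_of_mem _ hp')).mul_left a).add_right l
    exact h1.dvd_iff dvd_rfl
  have hcls : ∀ e ∈ B ×ˢ range G, UM (fun m => if E e.1 e.2 m then
      σ * ∏ l ∈ B, lam (a * m + l) else 0) (δ / 3 / (r * G)) := by
    rintro ⟨i, γ⟩ he
    have hi : i ∈ B := (mem_product.1 he).1
    have := hy₀ i (PR (y γ) (y G)) (fun p hp => ⟨(hge _ _ p hp).1, by
        have h1 := (hge _ _ p hp).2
        have h2 : y₀ i ≤ B.sup y₀ := le_sup (f := y₀) hi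
        omega⟩) (E i γ) _ hP0
      (fun m m' h => by simp only [hE, Aper m m' h])
      (fun m hm p hp hd => hm.1 ⟨p, hp, hd⟩) (fun m hm l hl => hm.2.1 l hl)
    refine this.mono 0 (fun m _ => le_of_eq ?_)
    simp only
    rw [← mul_prod_erase B (fun l => lam (a * m + l)) hi, mul_assoc]
    split_ifs <;> rfl
  have hbad1 : ∀ l ∈ B, UM (fun m => if A m l 0 then 0 else 1) (a / M) := by
    intro l _
    have h1 := (um_coprime (PR (y 0) (y G)) (fun p hp => (mem_PR.1 hp).2)).pullback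
      (fun u => by split_ifs <;> norm_num) (Real.exp_pos _).le a l ha
    refine (h1.mono 0 (fun m _ => le_of_eq ?_)).le ?_
    · simp only [hA]
    · have h2 : ∀ γ : ℕ, γ * η ≤ mass (y 0) (y γ) := by
        intro γ
        induction γ with
        | zero => simp [mass, PR]
        | succ γ ih =>
          have := mass_add (hmono (Nat.zero_le γ)) (hmono (Nat.le_succ γ))
          have := (hmass γ).1
          push_cast; linarith
      have h3 : (M : ℝ) ≤ mass (y 0) (y G) := by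
        refine le_trans (le_of_eq ?_) (h2 G)
        rw [hG, hη]; push_cast; field_simp
      have h4 : Real.exp (-mass (y 0) (y G)) ≤ 1 / M := by
        rw [Real.exp_neg, ← one_div]
        apply one_div_le_one_div_of_le hM0
        have := Real.add_one_le_exp (mass (y 0) (y G))
        linarith
      calc (a : ℝ) * Real.exp (-mass (y 0) (y G)) ≤ a * (1 / M) := by gcongr
        _ = _ := by ring
  have hbad2 : ∀ γ ∈ range G, ∀ l ∈ B, ∀ l' ∈ B.erase l,
      UM (fun m => ∑ p ∈ PR (y γ) (y (γ + 1)), ∑ p' ∈ PR (y γ) (y (γ + 1)),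
        (if p ∣ a * m + l ∧ p' ∣ a * m + l' then 1 else 0 : ℝ)) (4 * η ^ 2) := by
    intro γ _ l hl l' hl'
    have hs : l ≤ B.sup id := le_sup (f := id) hl
    have hs' : l' ≤ B.sup id := le_sup (f := id) (mem_erase.1 hl').2
    have h1 := UM.sum (PR (y γ) (y (γ + 1))) _ _ (fun p hp =>
      UM.sum (PR (y γ) (y (γ + 1))) _ _ (fun p' hp' =>
        um_pair (hge _ _ p hp).1 (hge _ _ p' hp').1 a l l' ha
          (by have := (hge _ _ p hp).2; omega) (by have := (hge _ _ p' hp').2; omega)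
          (by have := (hge _ _ p hp).2; omega) (by have := (hge _ _ p hp).2; omega)
          (mem_erase.1 hl').1.symm))
    refine h1.le ?_
    rw [← sum_mul_sum]
    have h2 := hmass γ
    change mass (y γ) (y (γ + 1)) * mass (y γ) (y (γ + 1)) ≤ _
    nlinarith
  have t1 := UM.sum _ _ _ hcls
  have t2 := UM.sum _ _ _ hbad1
  have t3 := UM.sum _ _ _ (fun γ hγ => UM.sum _ _ _ (fun l hl => UM.sum _ _ _
    (fun l' hl' => hbad2 γ hγ l hl l' hl')))
  refine (((t1.add t2).add t3).mono 0 (fun m _ => ?_)).le ?_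
  · have hF : σ * ∏ l ∈ B, lam (a * m + l) ≤ 1 := (le_abs_self _).trans
      (abs_mul_le_one hσ (abs_prod_le_one _ _ (fun _ _ => abs_lam_le _)))
    generalize σ * ∏ l ∈ B, lam (a * m + l) = F at hF ⊢
    have n1 : ∀ l ∈ B, (0 : ℝ) ≤ if A m l 0 then 0 else 1 := fun _ _ => by split_ifs <;> norm_num
    have n2 : ∀ (l l' : ℕ) (p p' : ℕ), (0 : ℝ) ≤
        if p ∣ a * m + l ∧ p' ∣ a * m + l' then 1 else 0 := fun _ _ _ _ => by
      split_ifs <;> norm_num
    have n3 : ∀ γ l l', 0 ≤ ∑ p ∈ PR (y γ) (y (γ + 1)), ∑ p' ∈ PR (y γ) (y (γ + 1)),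
        (if p ∣ a * m + l ∧ p' ∣ a * m + l' then 1 else 0 : ℝ) := fun γ l l' =>
      sum_nonneg (fun p _ => sum_nonneg (fun p' _ => n2 l l' p p'))
    have n4 : ∀ γ l, 0 ≤ ∑ l' ∈ B.erase l, ∑ p ∈ PR (y γ) (y (γ + 1)),
        ∑ p' ∈ PR (y γ) (y (γ + 1)),
        (if p ∣ a * m + l ∧ p' ∣ a * m + l' then 1 else 0 : ℝ) := fun γ l =>
      sum_nonneg (fun l' _ => n3 γ l l')
    have n5 : ∀ γ, 0 ≤ ∑ l ∈ B, ∑ l' ∈ B.erase l, ∑ p ∈ PR (y γ) (y (γ + 1)),
        ∑ p' ∈ PR (y γ) (y (γ + 1)),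
        (if p ∣ a * m + l ∧ p' ∣ a * m + l' then 1 else 0 : ℝ) := fun γ =>
      sum_nonneg (fun l _ => n4 γ l)
    have n6 := sum_nonneg (s := range G) (fun γ _ => n5 γ)
    have n7 := sum_nonneg n1
    by_cases hc : ∃ i ∈ B, ∃ γ < G, E i γ m
    · obtain ⟨i, hi, γ, hγ, hc⟩ := hc
      rw [sum_eq_single (i, γ) ?_ (fun h => absurd (mem_product.2 ⟨hi, mem_range.2 hγ⟩) h),
        if_pos hc]
      · linarith
      · rintro ⟨i', γ'⟩ he hne
        rw [if_neg]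
        intro h
        obtain ⟨e1, e2⟩ := classes_unique B (A m) (Amono m) hi (mem_product.1 he).1 hc h
        exact hne (by rw [e1, e2])
    · rw [sum_eq_zero (fun e he => if_neg (fun h =>
        hc ⟨e.1, (mem_product.1 he).1, e.2, mem_range.1 (mem_product.1 he).2, h⟩))]
      by_cases h0 : ∀ l ∈ B, A m l 0
      swap
      · push Not at h0
        obtain ⟨l, hl, h0⟩ := h0
        have := single_le_sum n1 hl
        rw [if_neg h0] at this
        linarith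
      by_contra hlt
      apply hc
      refine classes B h2 G (A m) ?_ h0 ?_
      · rintro l ⟨p, hp, -⟩
        have := (mem_PR.1 hp).1
        omega
      · intro γ hγ l hl l' hl' hne b1 b2 b3 b4
        have t : ∀ l, A m l γ → ¬ A m l (γ + 1) → ∃ p ∈ PR (y γ) (y (γ + 1)), p ∣ a * m + l := by
          rintro l ⟨p, hp, hd⟩ h
          rw [mem_PR] at hp
          refine ⟨p, mem_PR.2 ⟨⟨hp.1.1, ?_⟩, hp.2⟩, hd⟩
          by_contra h'
          exact h ⟨p, mem_PR.2 ⟨⟨not_lt.1 h', hp.1.2⟩, hp.2⟩, hd⟩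
        obtain ⟨p, hp, hd⟩ := t l b1 b2
        obtain ⟨p', hp', hd'⟩ := t l' b3 b4
        have s1 := single_le_sum (fun p' _ => n2 l l' p p') hp'
        rw [if_pos ⟨hd, hd'⟩] at s1
        have s2 := single_le_sum (s := PR (y γ) (y (γ + 1)))
          (fun p _ => sum_nonneg (s := PR (y γ) (y (γ + 1))) (fun p' _ => n2 l l' p p')) hp
        have s3 := single_le_sum (fun l' _ => n3 γ l l') (mem_erase.2 ⟨hne.symm, hl'⟩)
        have s4 := single_le_sum (fun l _ => n4 γ l) hl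
        have s5 := single_le_sum (fun γ _ => n5 γ) (mem_range.2 hγ)
        apply hlt
        linarith
  · rw [sum_const, sum_const, card_product, card_range, nsmul_eq_mul, nsmul_eq_mul]
    have e1 : ((B.card * G : ℕ) : ℝ) * (δ / 3 / (r * G)) = δ / 3 := by
      rw [Nat.cast_mul, ← hr]; field_simp
    have e2 : ∑ _γ ∈ range G, ∑ l ∈ B, ∑ _l' ∈ B.erase l, 4 * η ^ 2 ≤ 4 * r ^ 2 / M := by
      calc _ ≤ ∑ _γ ∈ range G, ∑ _l ∈ B, r * (4 * η ^ 2) := by
            refine sum_le_sum (fun _ _ => sum_le_sum (fun l _ => ?_))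
            rw [sum_const, nsmul_eq_mul]
            gcongr
            rw [hr]
            exact_mod_cast card_erase_le
        _ = _ := by
            rw [sum_const, sum_const, card_range, nsmul_eq_mul, nsmul_eq_mul, ← hr, hG, hη]
            push_cast; field_simp
    have e3 : r * (a / M) + 4 * r ^ 2 / M ≤ δ / 3 := by
      rw [div_lt_iff₀ hδ] at hMM
      rw [mul_div_assoc', ← add_div, div_le_iff₀ hM0]
      linarith
    rw [e1, ← hr]
    linarith

theorem main_littleO (hM : PureM) (a : ℕ) (ha : 0 < a) (B : Finset ℕ) (hB : B.Nonempty) :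
    (fun y : ℕ => ∑ n ∈ range y, ∏ l ∈ B, lam (a * n + l)) =o[atTop] (fun y : ℕ => (y : ℝ)) := by
  apply UM.littleO
  · simpa using main_upper hM a ha B hB 1 (by simp)
  · simpa using main_upper hM a ha B hB (-1) (by simp)

/-- passing between the two ways of writing the sums -/
lemma littleO_iff (f : ℕ → ℝ) :
    (fun x : ℝ => ∑ n ∈ Icc 1 ⌊x⌋₊, f n) =o[atTop] (fun x : ℝ => x) ↔
    (fun y : ℕ => ∑ n ∈ range y, f n) =o[atTop] (fun y : ℕ => (y : ℝ)) := by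
  have e : ∀ N : ℕ, ∑ n ∈ range (N + 1), f n = f 0 + ∑ n ∈ Icc 1 N, f n := by
    intro N
    rw [range_eq_Ico, sum_eq_sum_Ico_succ_bot (Nat.succ_pos N)]
    rfl
  constructor
  · intro h
    rw [Asymptotics.isLittleO_iff]
    intro ε hε
    have h1 := (h.comp_tendsto (tendsto_natCast_atTop_atTop.comp
      (tendsto_sub_atTop_nat 1))).def (show 0 < ε / 2 by positivity)
    filter_upwards [h1, ev_le |f 0| (ε / 2) (by positivity), eventually_ge_atTop 1] with y h1 h2 h3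
    obtain ⟨N, rfl⟩ : ∃ N, y = N + 1 := ⟨y - 1, by omega⟩
    simp only [Function.comp, Nat.add_sub_cancel, Nat.floor_natCast, Real.norm_eq_abs,
      Nat.abs_cast] at h1 ⊢
    rw [e]
    have := abs_add_le (f 0) (∑ n ∈ Icc 1 N, f n)
    push_cast at h2 ⊢
    nlinarith
  · intro h
    rw [Asymptotics.isLittleO_iff]
    intro ε hε
    have h1 := (h.comp_tendsto ((tendsto_add_atTop_nat 1).comp
      (tendsto_nat_floor_atTop (α := ℝ)))).def (show 0 < ε / 4 by positivity)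
    filter_upwards [h1, eventually_ge_atTop (|f 0| / (ε / 2)), eventually_ge_atTop 1]
      with x h1 h2 h3
    simp only [Function.comp, Real.norm_eq_abs, Nat.abs_cast] at h1 ⊢
    rw [e] at h1
    rw [div_le_iff₀ (by positivity)] at h2
    have h4 : (⌊x⌋₊ : ℝ) ≤ x := Nat.floor_le (by linarith)
    have h5 := abs_sub (f 0 + ∑ n ∈ Icc 1 ⌊x⌋₊, f n) (f 0)
    rw [add_sub_cancel_left] at h5
    rw [abs_of_pos (show 0 < x by linarith)]
    push_cast at h1
    nlinarith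

end Pool.Agent.P.MP_3b6bd2_nt
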